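import Pool.Agent.W2helper61.RF.NatM

/-! Bounded formulas are absolute between the standard structure and the models of the base
theory. -/

set_option autoImplicit false

namespace Pool.Agent.W2helper61.RF

open Pool.Agent.NPC Pool.Agent.H620R2.Gauge

variable {M : Type} (s : Str M)

/-- the axioms BASIC that are used -/
structure Bas : Prop where
  a1 : ∀ a b, s.le b a → s.le b (s.succ a)
  a3 : ∀ a, s.le s.zero a
  a4 : ∀ a b, (s.le a b ∧ a ≠ b) ↔ s.le (s.succ a) b
  a6 : ∀ a b, s.le a b ∨ s.le b a
  a7 : ∀ a b, s.le a b → s.le b a → a = b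
  a9 : s.len s.zero = s.zero
  a13 : ∀ a b, s.len (s.smash a b) = s.succ (s.mul (s.len a) (s.len b))
  a14 : ∀ a, s.smash s.zero a = s.succ s.zero
  a15 : ∀ a, a ≠ s.zero → s.smash (s.succ s.zero) (s.mul (s.succ (s.succ s.zero)) a) =
    s.mul (s.succ (s.succ s.zero)) (s.smash (s.succ s.zero) a) ∧
    s.smash (s.succ s.zero) (s.succ (s.mul (s.succ (s.succ s.zero)) a)) =
    s.mul (s.succ (s.succ s.zero)) (s.smash (s.succ s.zero) a)
  a16 : ∀ a b, s.smash a b = s.smash b a
  a18 : ∀ a b c d, s.len a = s.add (s.len b) (s.len c) →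
    s.smash a d = s.mul (s.smash b d) (s.smash c d)
  a22 : ∀ a, s.add a s.zero = a
  a23 : ∀ a b, s.add a (s.succ b) = s.succ (s.add a b)
  a26 : ∀ a, s.mul a s.zero = s.zero
  a27 : ∀ a b, s.mul a (s.succ b) = s.add (s.mul a b) a
  a28 : ∀ a b, s.mul a b = s.mul b a
  a30 : ∀ a b c, s.le (s.succ s.zero) a → (s.le (s.mul a b) (s.mul a c) ↔ s.le b c)
  a31 : ∀ a, a ≠ s.zero → s.len a = s.succ (s.len (s.half a))
  a32 : ∀ a b, a = s.half b ↔ (s.mul (s.succ (s.succ s.zero)) a = b ∨
    s.succ (s.mul (s.succ (s.succ s.zero)) a) = b)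

/-- an assignment -/
def asg (a b c d : M) : ℕ → M
  | 0 => a
  | 1 => b
  | 2 => c
  | _ => d

theorem bas_of {O : Oracle} {A : Set Fm} (h : Models s O A) : Bas s := by
  have key : ∀ k (hk : k < basic.length) a b c d, (basic[k]).sat s (asg a b c d) :=
    fun k hk a b c d => h _ (Or.inl (Base.basic _ (List.getElem_mem hk))) _
  refine ⟨fun a b => ?_, fun a => ?_, fun a b => ?_, fun a b => ?_, fun a b => ?_, ?_,
    fun a b => ?_, fun a => ?_, fun a => ?_, fun a b => ?_, fun a b c d => ?_, fun a => ?_,
    fun a b => ?_, fun a => ?_, fun a b => ?_, fun a b => ?_, fun a b c => ?_, fun a => ?_,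
    fun a b => ?_⟩
  · exact key 0 (by decide) a b a a
  · exact key 2 (by decide) a a a a
  · have h : ((((s.le a b → (a = b → False) → False) → False) → s.le (s.succ a) b) →
      (s.le (s.succ a) b → ((s.le a b → (a = b → False) → False) → False)) → False) → False :=
      key 3 (by decide) a b a a
    exact ((iff' _ _).1 h).symm.trans (and' _ _) |>.symm
  · exact (or' _ _).1 (key 5 (by decide) a b a a)
  · intro h1 h2
    exact key 6 (by decide) a b a a fun h => h h1 h2
  · exact key 8 (by decide) s.zero s.zero s.zero s.zero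
  · exact key 12 (by decide) a b a a
  · exact key 13 (by decide) a a a a
  · intro h
    exact (and' _ _).1 (key 14 (by decide) a a a a h)
  · exact key 15 (by decide) a b a a
  · exact key 17 (by decide) a b c d
  · exact key 21 (by decide) a a a a
  · exact key 22 (by decide) a b a a
  · exact key 25 (by decide) a a a a
  · exact key 26 (by decide) a b a a
  · exact key 27 (by decide) a b a a
  · intro h
    exact (iff' _ _).1 (key 29 (by decide) a b c a h)
  · intro h
    exact key 30 (by decide) a a a a h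
  · exact ((iff' _ _).1 (key 31 (by decide) a b a a)).trans (or' _ _)

variable {s}

/-- the standard elements -/
def jn (s : Str M) : ℕ → M
  | 0 => s.zero
  | n + 1 => s.succ (jn s n)

namespace Bas

variable (B : Bas s)
include B

theorem add (m n : ℕ) : jn s (m + n) = s.add (jn s m) (jn s n) := by
  induction n with
  | zero => exact (B.a22 _).symm
  | succ n ih =>
    show s.succ (jn s (m + n)) = s.add (jn s m) (s.succ (jn s n))
    rw [B.a23, ih]

theorem mul (m n : ℕ) : jn s (m * n) = s.mul (jn s m) (jn s n) := by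
  induction n with
  | zero => exact (B.a26 _).symm
  | succ n ih =>
    show jn s (m * n + m) = s.mul (jn s m) (s.succ (jn s n))
    rw [B.a27, B.add, ih]

theorem refl (a : M) : s.le a a := (B.a6 a a).elim id id

theorem mono {m n : ℕ} (h : m ≤ n) : s.le (jn s m) (jn s n) := by
  induction n, h using Nat.le_induction with
  | base => exact B.refl _
  | succ n _ ih => exact B.a1 _ _ ih

theorem lt_ne {m n : ℕ} (h : m < n) : jn s m ≠ jn s n :=
  ((B.a4 (jn s m) (jn s n)).2 (B.mono (m := m + 1) h)).2

theorem inj {m n : ℕ} (h : jn s m = jn s n) : m = n := by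
  rcases lt_trichotomy m n with h' | h' | h'
  · exact absurd h (B.lt_ne h')
  · exact h'
  · exact absurd h.symm (B.lt_ne h')

theorem le_iff {m n : ℕ} : s.le (jn s m) (jn s n) ↔ m ≤ n := by
  refine ⟨fun h => ?_, B.mono⟩
  by_contra h'
  push Not at h'
  exact B.lt_ne h' (B.a7 _ _ (B.mono h'.le) h)

theorem seg (N : ℕ) : ∀ a, s.le a (jn s N) → ∃ m ≤ N, a = jn s m := by
  induction N with
  | zero =>
    intro a h
    exact ⟨0, le_rfl, B.a7 _ _ h (B.a3 a)⟩
  | succ N ih =>
    intro a h
    rcases B.a6 a (jn s N) with h1 | h1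
    · obtain ⟨m, hm, h2⟩ := ih a h1
      exact ⟨m, by omega, h2⟩
    · by_cases h2 : jn s N = a
      · exact ⟨N, by omega, h2.symm⟩
      · exact ⟨N + 1, le_rfl, B.a7 _ _ h ((B.a4 _ _).1 ⟨h1, h2⟩)⟩

theorem dbl (n : ℕ) : s.mul (s.succ (s.succ s.zero)) (jn s n) = jn s (2 * n) := (B.mul 2 n).symm

theorem half (n : ℕ) : jn s (n / 2) = s.half (jn s n) := by
  rw [B.a32, B.dbl]
  rcases Nat.even_or_odd' n with ⟨k, rfl | rfl⟩
  · left
    congr 1
    omega
  · right
    show jn s (2 * ((2 * k + 1) / 2) + 1) = _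
    congr 1
    omega

theorem ne_zero {n : ℕ} (h : n ≠ 0) : jn s n ≠ s.zero := fun h' => h (B.inj (n := 0) h')

theorem len (n : ℕ) : jn s n.size = s.len (jn s n) := by
  induction n using Nat.strong_induction_on with
  | _ n ih =>
    by_cases h : n = 0
    · subst h
      rw [Nat.size_zero]
      exact B.a9.symm
    · rw [size_half n h, B.a31 _ (B.ne_zero h), ← B.half, ← ih (n / 2) (by omega)]
      rfl

theorem smash11 : s.smash (jn s 1) (jn s 1) = jn s 2 := by
  have h0 : s.len (s.smash (jn s 1) (jn s 1)) = jn s 2 := by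
    rw [B.a13, ← B.len, ← B.mul]
    simp
    rfl
  have h1 : s.smash (jn s 1) (jn s 1) ≠ s.zero := by
    intro h
    rw [h, B.a9] at h0
    exact B.ne_zero (n := 2) (by norm_num) h0.symm
  have h2 : s.smash (jn s 1) (jn s 2) = s.mul (jn s 2) (s.smash (jn s 1) (jn s 1)) := by
    have := (B.a15 (jn s 1) (B.ne_zero (by norm_num))).1
    rw [B.dbl] at this
    exact this
  have h3 : s.smash (jn s 2) (jn s 1) =
      s.mul (s.smash (jn s 1) (jn s 1)) (s.smash (jn s 1) (jn s 1)) := by
    refine B.a18 _ _ _ _ ?_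
    rw [← B.len, ← B.len, ← B.add]
    rfl
  have h4 : s.mul (s.smash (jn s 1) (jn s 1)) (s.smash (jn s 1) (jn s 1)) =
      s.mul (s.smash (jn s 1) (jn s 1)) (jn s 2) := by
    rw [← h3, B.a16, h2, B.a28]
  have h5 : s.le (s.succ s.zero) (s.smash (jn s 1) (jn s 1)) :=
    (B.a4 _ _).1 ⟨B.a3 _, fun h => h1 h.symm⟩
  refine B.a7 _ _ ((B.a30 _ _ _ h5).1 ?_) ((B.a30 _ _ _ h5).1 ?_)
  · rw [h4]
    exact B.refl _
  · rw [h4]
    exact B.refl _

theorem smash1 (n : ℕ) : s.smash (jn s 1) (jn s n) = jn s (2 ^ n.size) := by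
  induction n using Nat.strong_induction_on with
  | _ n ih =>
    by_cases h : n = 0
    · subst h
      rw [B.a16, Nat.size_zero, pow_zero]
      exact B.a14 (jn s 1)
    · by_cases h1 : n = 1
      · subst h1
        rw [B.smash11]
        simp
      · have h2 : n / 2 ≠ 0 := by omega
        have h3 := ih (n / 2) (by omega)
        have h4 := B.a15 (jn s (n / 2)) (B.ne_zero h2)
        rw [B.dbl] at h4
        have h5 : s.mul (s.succ (s.succ s.zero)) (s.smash (s.succ s.zero) (jn s (n / 2))) =
            jn s (2 ^ n.size) := by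
          have : s.smash (s.succ s.zero) (jn s (n / 2)) = jn s (2 ^ (n / 2).size) := h3
          rw [this, B.dbl, size_half n h, pow_succ, mul_comm]
        rw [h5] at h4
        rcases Nat.even_or_odd' n with ⟨k, hk | hk⟩
        · have e : n = 2 * (n / 2) := by omega
          rw [← h4.1]
          rw [e]
          simp
          rfl
        · have e : n = 2 * (n / 2) + 1 := by omega
          rw [← h4.2]
          show s.smash (s.succ s.zero) (jn s n) = s.smash (s.succ s.zero) (jn s (2 * (n / 2) + 1))
          rw [← e]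

theorem smash (m n : ℕ) : jn s (2 ^ (m.size * n.size)) = s.smash (jn s m) (jn s n) := by
  induction m using Nat.strong_induction_on with
  | _ m ih =>
    by_cases h : m = 0
    · subst h
      rw [Nat.size_zero, zero_mul, pow_zero]
      exact (B.a14 (jn s n)).symm
    · rw [B.a18 (jn s m) (jn s (m / 2)) (jn s 1) (jn s n) (by
        rw [← B.len, ← B.len, ← B.len, ← B.add, size_half m h]
        simp), ← ih (m / 2) (by omega), B.smash1, ← B.mul]
      congr 1
      rw [size_half m h, add_mul, pow_add, one_mul]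

theorem val (O : Oracle) (v : ℕ → ℕ) (t : Tm) :
    t.val s (fun i => jn s (v i)) = jn s (t.val (nat O) v) := by
  induction t with
  | var i => rfl
  | zero => rfl
  | succ t ih =>
    simp only [Tm.val, ih]
    rfl
  | add t u ih1 ih2 =>
    simp only [Tm.val, ih1, ih2, ← B.add]
    rfl
  | mul t u ih1 ih2 =>
    simp only [Tm.val, ih1, ih2, ← B.mul]
    rfl
  | half t ih =>
    simp only [Tm.val, ih, ← B.half]
    rfl
  | len t ih =>
    simp only [Tm.val, ih, ← B.len]
    rfl
  | smash t u ih1 ih2 =>
    simp only [Tm.val, ih1, ih2, ← B.smash]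
    rfl

theorem num (v : ℕ → M) (n : ℕ) : (num n).val s v = jn s n := by
  refine num_ind (P := fun n => (RF.num n).val s v = jn s n) ?_ ?_ n
  · show (RF.num 0).val s v = _
    rw [num_zero]
    rfl
  · intro b n h ih
    show (RF.num (Nat.bit b n)).val s v = _
    rw [num_bit b n h]
    cases b with
    | true =>
      show s.succ (s.mul (s.succ (s.succ s.zero)) ((RF.num n).val s v)) = _
      rw [ih, B.dbl]
      simp only [Nat.bit]
      rfl
    | false =>
      show s.mul (s.succ (s.succ s.zero)) ((RF.num n).val s v) = _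
      rw [ih, B.dbl]
      simp only [Nat.bit]
      rfl

theorem abs {O : Oracle} (hO : ∀ n, s.orc (jn s n) ↔ O (str n) = true) {φ : Fm} (hφ : Bdd φ) :
    ∀ v : ℕ → ℕ, φ.sat s (fun i => jn s (v i)) ↔ φ.sat (nat O) v := by
  induction hφ with
  | eq t u =>
    intro v
    simp only [Fm.sat]
    rw [B.val O, B.val O]
    exact ⟨fun h => B.inj h, fun h => by rw [h]⟩
  | le t u =>
    intro v
    simp only [Fm.sat]
    rw [B.val O, B.val O]
    exact B.le_iff
  | orc t =>
    intro v
    simp only [Fm.sat]
    rw [B.val O]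
    exact hO _
  | bot => intro v; exact Iff.rfl
  | imp φ ψ _ _ ih1 ih2 =>
    intro v
    simp only [Fm.sat, ih1, ih2]
  | ball t φ _ ih =>
    intro v
    simp only [Fm.sat, Tm.val_shift]
    have hc : ∀ m, (cons (jn s m) fun i => jn s (v i)) = fun i => jn s (cons m v i) := by
      intro m
      funext i
      rcases i with _ | i <;> rfl
    constructor
    · intro h m hm
      have h1 := h (jn s m) (by
        rw [B.val O]
        exact B.le_iff.2 hm)
      rw [hc] at h1
      exact (ih _).1 h1
    · intro h a ha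
      have ha' : s.le a (jn s (t.val (nat O) v)) := by
        rw [← B.val O]
        exact ha
      obtain ⟨m, hm, rfl⟩ := B.seg _ a ha'
      rw [hc]
      exact (ih _).2 (h m hm)

end Bas

theorem orc_of {O : Oracle} {A : Set Fm} (h : Models s O A) (n : ℕ) :
    s.orc (jn s n) ↔ O (str n) = true := by
  have B := bas_of s h
  constructor
  · intro h1
    by_contra h2
    have h3 := h _ (Or.inl (Base.neg n (by simpa using h2))) (fun _ => s.zero)
    refine h3 ?_
    show s.orc ((RF.num n).val s _)
    rw [B.num]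
    exact h1
  · intro h1
    have h3 := h _ (Or.inl (Base.pos n h1)) (fun _ => s.zero)
    have h4 : s.orc ((RF.num n).val s (fun _ => s.zero)) := h3
    rwa [B.num] at h4

end Pool.Agent.W2helper61.RF
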