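import Pool.Agent.W2helper61.RF.NatM
import Pool.Agent.W2helper61.LH.Low

/-! The proofs are computed in polynomial time. -/

set_option autoImplicit false

namespace Pool.Agent.W2helper61.RF

open Pool.Agent.NPC Pool.Agent.H622R2 Pool.Agent.H620R2.Gauge

/-- a term of length at least `m` -/
def big : ℕ → Tm
  | 0 => .zero
  | m + 1 => .succ (big m)

/-- padding: a logical axiom of length at least `m` -/
def pad (m : ℕ) : Fm := .imp .bot (.imp (.orc (big m)) .bot)

/-- the axioms of the theory `S` -/
def cl (F μ : Fm) (n m : ℕ) : Fm := .imp (pad m) (rfn F μ n)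

/-- the contribution of a digit -/
def pre (b : Bool) : List Bool :=
  (if b then [false, true, false] else []) ++
    (true :: false :: false :: (Tm.succ (.succ .zero)).enc)

theorem enc_num (n : ℕ) : (num n).enc = n.bits.flatMap pre ++ Tm.zero.enc := by
  refine num_ind (P := fun n => (num n).enc = n.bits.flatMap pre ++ Tm.zero.enc) ?_ ?_ n
  · show (num 0).enc = _
    rw [num_zero]
    simp
  · intro b n h ih
    show (num (Nat.bit b n)).enc = _
    rw [num_bit b n h, Nat.bits_append_bit _ _ h, List.flatMap_cons, List.append_assoc, ← ih]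
    cases b <;> simp [pre, Tm.enc]

theorem enc_big (m : ℕ) : (big m).enc =
    (List.replicate m true).flatMap (fun _ => [false, true, false]) ++ Tm.zero.enc := by
  induction m with
  | zero => rfl
  | succ m ih =>
    rw [List.replicate_succ, List.flatMap_cons, List.append_assoc, ← ih]
    rfl

section

variable {α : Type} [TEnc α]

theorem poly_num {n : α → ℕ} (hn : Poly n) : Poly (fun a => (num (n a)).enc) := by
  have h1 : Poly (fun p : α × Bool => pre p.2) :=
    Poly.append (Poly.ite (Poly.decide_eq (Poly.snd Poly.id) (NPC.Poly.const true))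
      (NPC.Poly.const _) (NPC.Poly.const _)) (NPC.Poly.const _)
  exact (Poly.append (Poly.flatMap (F := fun _ b => pre b) (Poly.natBits hn) h1)
    (NPC.Poly.const _)).congr fun a => (enc_num (n a)).symm

theorem poly_big {m : α → ℕ} (hm : UPoly m) : Poly (fun a => (big (m a)).enc) :=
  (Poly.append (Poly.flatMap (F := fun _ _ => [false, true, false]) (LH.poly_ones hm)
    (NPC.Poly.const _)) (NPC.Poly.const _)).congr fun a => (enc_big (m a)).symm

theorem poly_imp {φ ψ : α → Fm} (hφ : Poly (fun a => (φ a).enc)) (hψ : Poly (fun a => (ψ a).enc)) :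
    Poly (fun a => (Fm.imp (φ a) (ψ a)).enc) :=
  Poly.cons (NPC.Poly.const true) (Poly.cons (NPC.Poly.const false) (Poly.append hφ hψ))

theorem poly_all {φ : α → Fm} (hφ : Poly (fun a => (φ a).enc)) :
    Poly (fun a => (Fm.all (φ a)).enc) :=
  Poly.cons (NPC.Poly.const true) (Poly.cons (NPC.Poly.const true) hφ)

theorem poly_le {s t : α → Tm} (hs : Poly (fun a => (s a).enc)) (ht : Poly (fun a => (t a).enc)) :
    Poly (fun a => (Fm.le (s a) (t a)).enc) :=
  Poly.cons (NPC.Poly.const false) (Poly.cons (NPC.Poly.const false)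
    (Poly.cons (NPC.Poly.const true) (Poly.append hs ht)))

theorem poly_rfn (F μ : Fm) {n : α → ℕ} (hn : Poly n) :
    Poly (fun a => (rfn F μ (n a)).enc) := by
  have h := poly_num hn
  exact poly_all (poly_all (poly_all (poly_all (poly_imp (poly_le (s := fun _ => .len (.var 3))
    (NPC.Poly.const _) h) (poly_imp (poly_le (s := fun _ => .len (.var 2)) (NPC.Poly.const _) h)
    (poly_imp (poly_le (s := fun _ => .len (.var 1)) (NPC.Poly.const _) h)
    (poly_imp (poly_le (s := fun _ => .len (.var 0)) (NPC.Poly.const _) h)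
    (poly_imp (φ := fun _ => F) (ψ := fun _ => μ) (NPC.Poly.const _) (NPC.Poly.const _)))))))))

theorem poly_pad {m : α → ℕ} (hm : UPoly m) : Poly (fun a => (pad (m a)).enc) :=
  poly_imp (φ := fun _ => .bot) (NPC.Poly.const _) (poly_imp (φ := fun a => .orc (big (m a)))
    (ψ := fun _ => .bot) (Poly.cons (NPC.Poly.const false) (Poly.cons (NPC.Poly.const true)
      (Poly.cons (NPC.Poly.const false) (poly_big hm)))) (NPC.Poly.const _))

theorem poly_encPf (F μ : Fm) {n m : α → ℕ} (hn : Poly n) (hm : UPoly m) :
    Poly (fun a => encPf [rfn F μ (n a), cl F μ (n a) (m a), pad (m a)]) := by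
  have h1 := poly_rfn F μ hn
  have h2 := poly_pad hm
  have h3 := poly_imp h2 h1
  exact Poly.cons (NPC.Poly.const true) (Poly.append h1 (Poly.cons (NPC.Poly.const true)
    (Poly.append h3 (Poly.cons (NPC.Poly.const true) (Poly.append h2 (NPC.Poly.const [false]))))))

end

end Pool.Agent.W2helper61.RF
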