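import Pool.Agent.W2helper61.RF.Orc
import Pool.Agent.W2helper61.RF.Abs
import Pool.Agent.W2helper61.RF.Uni

/-! The theorem. -/

set_option autoImplicit false

namespace Pool.Agent.W2helper61.RF

open Pool.Agent.NPC Pool.Agent.H622R2 Pool.Agent.H620R2.Gauge Pool.Agent.H591R3.PHG
  Pool.Agent.TH678.GC Pool.Agent.W2helper58.GU
open Pool.Agent.W2helper61.LH (isFP_right)

/-! ### The reflection sentences -/

theorem sat_rfn (O : Oracle) (F μ : Fm) (n : ℕ) (v : ℕ → ℕ) :
    (rfn F μ n).sat (nat O) v ↔ ∀ u z x e : ℕ, u.size ≤ n → z.size ≤ n → x.size ≤ n → e.size ≤ n →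
      F.sat (nat O) (cons e (cons x (cons z (cons u v)))) →
      μ.sat (nat O) (cons e (cons x (cons z (cons u v)))) := by
  have h : ∀ w : ℕ → ℕ, (num n).val (nat O) w = n := fun w => val_num O w n
  constructor
  · intro H u z x e h1 h2 h3 h4
    refine H u z x e ?_ ?_ ?_ ?_
    · show u.size ≤ (num n).val (nat O) _
      rw [h]; exact h1
    · show z.size ≤ (num n).val (nat O) _
      rw [h]; exact h2
    · show x.size ≤ (num n).val (nat O) _
      rw [h]; exact h3
    · show e.size ≤ (num n).val (nat O) _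
      rw [h]; exact h4
  · intro H u z x e h1 h2 h3 h4
    have k1 : u.size ≤ (num n).val (nat O) _ := h1
    have k2 : z.size ≤ (num n).val (nat O) _ := h2
    have k3 : x.size ≤ (num n).val (nat O) _ := h3
    have k4 : e.size ≤ (num n).val (nat O) _ := h4
    rw [h] at k1 k2 k3 k4
    exact H u z x e k1 k2 k3 k4

/-- the truth of the sentence depends only on the oracle at strings of length less than `k` -/
def Loc (φ : Fm) (k : ℕ) : Prop := ∀ O O' : Oracle, (∀ u : List Bool, u.length < k → O u = O' u) →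
  (φ.sat (nat O) (fun _ => 0) ↔ φ.sat (nat O') (fun _ => 0))

theorem rfn_loc {F μ : Fm} (hF : Bdd F) (hμ : Bdd μ) : ∃ q : Polynomial ℕ, ∀ n k,
    q.eval n < k → Loc (rfn F μ n) k := by
  obtain ⟨q, hq⟩ := bdd_loc hF
  obtain ⟨r, hr⟩ := bdd_loc hμ
  refine ⟨q + r, fun n k hk O O' hO => ?_⟩
  rw [Polynomial.eval_add] at hk
  rw [sat_rfn, sat_rfn]
  refine forall_congr' fun u => forall_congr' fun z => forall_congr' fun x => forall_congr' fun e =>
    imp_congr_right fun h1 => imp_congr_right fun h2 => imp_congr_right fun h3 =>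
      imp_congr_right fun h4 => ?_
  have hv : ∀ i, (cons e (cons x (cons z (cons u fun _ => 0))) i).size ≤ n := by
    intro i
    rcases i with _ | _ | _ | _ | i
    · exact h4
    · exact h3
    · exact h2
    · exact h1
    · show Nat.size 0 ≤ n
      rw [Nat.size_zero]
      exact Nat.zero_le _
  rw [hq n _ O O' hv fun u hu => hO u (by omega), hr n _ O O' hv fun u hu => hO u (by omega)]

theorem below_rfn {F μ : Fm} (hF : F.Below 4) (hμ : μ.Below 3) (n : ℕ) : (rfn F μ n).Below 0 := by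
  have h : ∀ k, (num n).Below k := fun k => below_num k n
  refine ⟨⟨?_, h _⟩, ⟨?_, h _⟩, ⟨?_, h _⟩, ⟨?_, h _⟩, hF, Fm.Below.mono (by norm_num) hμ⟩
  · show 3 < 4
    norm_num
  · show 2 < 4
    norm_num
  · show 1 < 4
    norm_num
  · show 0 < 4
    norm_num

/-- reflection for a theory with a model is true -/
theorem rfn_true {O : Oracle} {A : Set Fm} (hA : Cons O A) {F μ : Fm} (hF : Sound O A μ F)
    (hμ : Bdd μ) (hμ3 : μ.Below 3) (n : ℕ) (v : ℕ → ℕ) : (rfn F μ n).sat (nat O) v := by
  rw [sat_rfn]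
  intro u z x e _ _ _ _ h
  have e4 : ∀ i < 4, cons e (cons x (cons z (cons u v))) i = env [e, x, z, u] i := by
    intro i hi
    interval_cases i <;> rfl
  rw [Fm.sat_congr (nat O) F hF.2.1 e4] at h
  obtain ⟨π, hπ⟩ := hF.2.2 e x z u h
  obtain ⟨M, s, hM⟩ := hA
  have B := bas_of s hM
  have h1 := hπ.sound s hM (fun _ => s.zero)
  rw [Fm.sat_sub, Fm.sat_congr s μ hμ3 (w := fun i => jn s (env [e, x, z, u] i)) (by
    intro i hi
    interval_cases i
    · exact B.num _ e
    · exact B.num _ x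
    · exact B.num _ z), B.abs (fun n => orc_of hM n) hμ] at h1
  rwa [Fm.sat_congr (nat O) μ (Fm.Below.mono (by norm_num) hμ3) e4]

/-! ### The claims -/

theorem below_big (k m : ℕ) : (big m).Below k := by
  induction m with
  | zero => trivial
  | succ m ih => exact ih

theorem length_big (m : ℕ) : (big m).enc.length = 3 * m + 3 := by
  induction m with
  | zero => rfl
  | succ m ih =>
    show (false :: true :: false :: (big m).enc).length = _
    simp only [List.length_cons, ih]
    omega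

theorem length_pad (m : ℕ) : (pad m).enc.length = 3 * m + 16 := by
  show (true :: false :: (([false, true, true] : List Bool) ++
    (true :: false :: ((false :: true :: false :: (big m).enc) ++ [false, true, true])))).length = _
  simp only [List.length_cons, List.length_append, List.length_nil, length_big]
  omega

theorem pad_lax (m : ℕ) : LAx (pad m) := LAx.k _ _

theorem below_cl {F μ : Fm} (hF : F.Below 4) (hμ : μ.Below 3) (n m : ℕ) : (cl F μ n m).Below 0 :=
  ⟨⟨trivial, below_big _ _, trivial⟩, below_rfn hF hμ n⟩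

theorem sat_cl (O : Oracle) (F μ : Fm) (n m : ℕ) (v : ℕ → ℕ) :
    (cl F μ n m).sat (nat O) v ↔ (rfn F μ n).sat (nat O) v :=
  ⟨fun h => h ((pad_lax m).sound _ _), fun h _ => h⟩

/-- the string is a claim for `F` and `μ` -/
def Cl (x : List Bool) (F μ : Fm) : Prop := Bdd F ∧ F.Below 4 ∧ Bdd μ ∧ μ.Below 3 ∧
  ∃ n m, x = (cl F μ n m).enc ∧ Loc (rfn F μ n) x.length

theorem cl_inj {F μ F' μ' : Fm} {n m n' m' : ℕ} (h : (cl F μ n m).enc = (cl F' μ' n' m').enc) :
    F = F' ∧ μ = μ' ∧ rfn F μ n = rfn F' μ' n' := by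
  have h1 := Fm.enc_injective h
  unfold cl at h1
  have h2 : rfn F μ n = rfn F' μ' n' := (Fm.imp.inj h1).2
  have h3 := h2
  unfold rfn at h3
  simp only [Fm.all.injEq, Fm.imp.injEq] at h3
  exact ⟨h3.2.2.2.2.1, h3.2.2.2.2.2, h2⟩

theorem Cl.uniq {x : List Bool} {F μ F' μ' : Fm} (h : Cl x F μ) (h' : Cl x F' μ') :
    F = F' ∧ μ = μ' := by
  obtain ⟨_, _, _, _, n, m, h1, _⟩ := h
  obtain ⟨_, _, _, _, n', m', h2, _⟩ := h'
  rw [h1] at h2
  exact ⟨(cl_inj h2).1, (cl_inj h2).2.1⟩

open Classical in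
/-- the family of a claim -/
noncomputable def idx (ι : Fm × Fm → ℕ) (x : List Bool) : Option ℕ :=
  if h : ∃ p : Fm × Fm, Cl x p.1 p.2 then some (ι h.choose) else none

theorem idx_of {ι : Fm × Fm → ℕ} {x : List Bool} {F μ : Fm} (h : Cl x F μ) :
    idx ι x = some (ι (F, μ)) := by
  have h' : ∃ p : Fm × Fm, Cl x p.1 p.2 := ⟨(F, μ), h⟩
  unfold idx
  rw [dif_pos h']
  have h1 := h'.choose_spec.uniq h
  congr 2
  exact Prod.ext h1.1 h1.2

theorem of_idx {ι : Fm × Fm → ℕ} (hι : Function.Injective ι) {x : List Bool} {F μ : Fm}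
    (h : idx ι x = some (ι (F, μ))) : Cl x F μ := by
  unfold idx at h
  by_cases h' : ∃ p : Fm × Fm, Cl x p.1 p.2
  · rw [dif_pos h'] at h
    have h1 := hι (Option.some.inj h)
    have h2 := h'.choose_spec
    rw [h1] at h2
    exact h2
  · rw [dif_neg h'] at h
    cases h

theorem isSome_idx {ι : Fm × Fm → ℕ} {x : List Bool} (h : (idx ι x).isSome) :
    ∃ F μ, Cl x F μ := by
  by_contra h'
  push Not at h'
  unfold idx at h
  rw [dif_neg fun ⟨p, hp⟩ => h' _ _ hp] at h
  cases h

/-- the claims -/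
noncomputable def claims (ι : Fm × Fm → ℕ) : Claims where
  idx := idx ι
  St := fun x O => ∀ F μ n m, Cl x F μ → x = (cl F μ n m).enc →
    (rfn F μ n).sat (nat O) (fun _ => 0)
  loc := by
    intro x O O' hO
    refine forall_congr' fun F => forall_congr' fun μ => forall_congr' fun n =>
      forall_congr' fun m => imp_congr_right fun h => imp_congr_right fun hx => ?_
    obtain ⟨_, _, _, _, n', m', h1, h2⟩ := h
    have h3 := (cl_inj (hx ▸ h1 : (cl F μ n m).enc = (cl F μ n' m').enc)).2.2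
    rw [h3]
    exact h2 O O' hO

theorem length_rfn (F μ : Fm) (n : ℕ) :
    (rfn F μ n).enc.length ≤ 60 * n + F.enc.length + μ.enc.length + 100 := by
  have h := length_num n
  unfold rfn
  simp only [Fm.enc, Tm.enc, List.length_cons, List.length_append, List.length_replicate,
    List.length_nil]
  omega

theorem main : ∃ O : Oracle,
    (∀ k : ℕ, ∃ L : Set (List Bool), (∀ x ∈ L, x = List.replicate x.length true) ∧
      IsSig O (k + 1) L ∧ ¬ IsSig O k L ∧ ¬ IsSig O k Lᶜ) ∧
    ∃ S : Set Fm, InT O S ∧ ∀ μ : Fm, Bdd μ → μ.Below 3 → ∀ A : Set Fm, Cons O A →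
      ∀ F : Fm, Sound O A μ F → ∃ (f : List Bool → List Bool) (p : Polynomial ℕ), PolyTime f ∧
        ∀ n : ℕ, ∃ π : List Fm, PfOf O S (rfn F μ n) π ∧ (encPf π).length ≤ p.eval n ∧
          f (List.replicate n true) = encPf π := by
  have hc := Fm.countable
  obtain ⟨ι, hι⟩ := exists_injective_nat (Fm × Fm)
  obtain ⟨O, hPH, hO0, hO1, hO2⟩ := claims_main (claims ι)
  have hS : ∀ x, O (true :: x) = true → ∃ F μ n m, F.Below 4 ∧ μ.Below 3 ∧
      x = (cl F μ n m).enc ∧ (rfn F μ n).sat (nat O) (fun _ => 0) := by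
    intro x hx
    obtain ⟨h1, h2⟩ := hO1 x hx
    obtain ⟨F, μ, h3⟩ := isSome_idx h1
    obtain ⟨a1, a2, a3, a4, n, m, h4, h5⟩ := h3
    exact ⟨F, μ, n, m, a2, a4, h4, h2 F μ n m ⟨a1, a2, a3, a4, n, m, h4, h5⟩ h4⟩
  have hjoin : O = join (fun y => O (false :: y)) (fun x => O (true :: x)) := by
    funext u
    rcases u with _ | ⟨b, u⟩
    · exact hO0
    · cases b <;> rfl
  refine ⟨O, hPH, {φ | O (true :: φ.enc) = true}, ⟨fun φ hφ => ?_, ?_, ℕ, nat O, ?_⟩, ?_⟩
  · obtain ⟨F, μ, n, m, h1, h2, h3, _⟩ := hS _ hφ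
    rw [Fm.enc_injective h3]
    exact below_cl h1 h2 n m
  · refine ⟨fun x => [O (true :: x)], ?_, fun x => ?_⟩
    · have := isFP_right (fun y => O (false :: y)) (fun x => O (true :: x))
      rwa [← hjoin] at this
    · constructor
      · rintro ⟨φ, hφ, rfl⟩
        have h : O (true :: φ.enc) = true := hφ
        show [O (true :: φ.enc)] = [true]
        rw [h]
      · intro h
        have h' : O (true :: x) = true := by simpa using h
        obtain ⟨F, μ, n, m, _, _, h3, _⟩ := hS _ h'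
        exact ⟨cl F μ n m, by rw [Set.mem_ofPred_eq, ← h3]; exact h', h3.symm⟩
  · rintro φ (hφ | hφ) v
    · exact nat_base O hφ v
    · obtain ⟨F, μ, n, m, h1, h2, h3, h4⟩ := hS _ hφ
      rw [Fm.enc_injective h3, Fm.sat_congr (nat O) _ (below_cl h1 h2 n m) (w := fun _ => 0)
        (fun i hi => absurd hi (Nat.not_lt_zero _)), sat_cl]
      exact h4
  · intro μ hμ hμ3 A hA F hF
    obtain ⟨ℓ, hℓ⟩ := hO2 (ι (F, μ)) (by
      intro x hx F' μ' n m h1 _
      have h2 := (of_idx hι hx).uniq h1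
      rw [← h2.1, ← h2.2]
      exact rfn_true hA hF hμ hμ3 n _)
    obtain ⟨q, hq⟩ := rfn_loc hF.1 hμ
    refine ⟨fun x => encPf [rfn F μ x.length, cl F μ x.length (ℓ + q.eval x.length + 1),
      pad (ℓ + q.eval x.length + 1)], Polynomial.C (10 * (F.enc.length + μ.enc.length + ℓ + 100)) +
      Polynomial.C 120 * Polynomial.X + Polynomial.C 6 * q, ?_, fun n => ?_⟩
    · have hl : UPoly (fun x : List Bool => x.length) := UPoly.length Poly.id
      exact polyTime_of_poly_list (poly_encPf F μ hl.toPoly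
        (UPoly.add (UPoly.add (UPoly.const ℓ) (hl.eval q)) (UPoly.const 1)))
    set m : ℕ := ℓ + q.eval n + 1 with hm
    have hlen : (cl F μ n m).enc.length = 3 * m + 18 + (rfn F μ n).enc.length := by
      show (true :: false :: ((pad m).enc ++ (rfn F μ n).enc)).length = _
      rw [List.length_cons, List.length_cons, List.length_append, length_pad]
      omega
    have hcl : Cl (cl F μ n m).enc F μ := ⟨hF.1, hF.2.1, hμ, hμ3, n, m, rfl, hq n _ (by
      rw [hlen]; omega)⟩
    have hmem : O (true :: (cl F μ n m).enc) = true := hℓ _ (idx_of hcl) (by rw [hlen]; omega)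
    refine ⟨[rfn F μ n, cl F μ n m, pad m], ⟨?_, rfl⟩, ?_, by simp only [List.length_replicate, hm]⟩
    · refine Prf.mp _ (pad m) _ (Prf.ax _ _ (Prf.ax _ _ Prf.nil (Or.inl (pad_lax m)))
        (Or.inr (Or.inr hmem))) ?_ ?_
      · exact List.mem_cons_self
      · simp
    · have h1 := length_rfn F μ n
      have h2 := length_pad m
      simp only [encPf, List.length_cons, List.length_append, List.length_nil, hlen,
        Polynomial.eval_add, Polynomial.eval_mul, Polynomial.eval_C, Polynomial.eval_X]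
      omega

end Pool.Agent.W2helper61.RF
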