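import Pool.Agent.W2helper61.RF.Sem

/-! The standard model. -/

set_option autoImplicit false

namespace Pool.Agent.W2helper61.RF

open Pool.Agent.NPC Pool.Agent.H620R2.Gauge

theorem val_nat (O O' : Oracle) (v : ℕ → ℕ) (t : Tm) : t.val (nat O) v = t.val (nat O') v := by
  induction t with
  | var i => rfl
  | zero => rfl
  | succ t ih => simp only [Tm.val, ih]; rfl
  | add t u ih1 ih2 => simp only [Tm.val, ih1, ih2]; rfl
  | mul t u ih1 ih2 => simp only [Tm.val, ih1, ih2]; rfl
  | half t ih => simp only [Tm.val, ih]; rfl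
  | len t ih => simp only [Tm.val, ih]; rfl
  | smash t u ih1 ih2 => simp only [Tm.val, ih1, ih2]; rfl

theorem num_bit (b : Bool) (n : ℕ) (h : n = 0 → b = true) :
    num (Nat.bit b n) = bif b then .succ (.mul (.succ (.succ .zero)) (num n)) else
      .mul (.succ (.succ .zero)) (num n) :=
  Nat.binaryRec_eq b n (Or.inr h)

theorem num_zero : num 0 = .zero := Nat.binaryRec_zero _ _

/-- induction for numerals -/
theorem num_ind {P : ℕ → Prop} (h0 : P 0) (h1 : ∀ b n, (n = 0 → b = true) → P n → P (Nat.bit b n))
    (n : ℕ) : P n := by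
  induction n using Nat.binaryRec' with
  | zero => exact h0
  | bit b n h ih => exact h1 b n h ih

theorem val_num (O : Oracle) (v : ℕ → ℕ) (n : ℕ) : (num n).val (nat O) v = n := by
  refine num_ind (P := fun n => (num n).val (nat O) v = n) ?_ ?_ n
  · show (num 0).val (nat O) v = 0
    rw [num_zero]
    rfl
  · intro b n h ih
    show (num (Nat.bit b n)).val (nat O) v = Nat.bit b n
    rw [num_bit b n h]
    cases b with
    | true =>
      show (0 + 1 + 1) * (num n).val (nat O) v + 1 = _
      rw [ih]
      simp [Nat.bit]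
    | false =>
      show (0 + 1 + 1) * (num n).val (nat O) v = _
      rw [ih]
      simp [Nat.bit]

theorem below_num (k n : ℕ) : (num n).Below k := by
  refine num_ind (P := fun n => (num n).Below k) ?_ ?_ n
  · show (num 0).Below k
    rw [num_zero]
    trivial
  · intro b n h ih
    show (num (Nat.bit b n)).Below k
    rw [num_bit b n h]
    cases b with
    | true => exact ⟨trivial, ih⟩
    | false => exact ⟨trivial, ih⟩

theorem length_num (n : ℕ) : (num n).enc.length ≤ 15 * n + 3 := by
  refine num_ind (P := fun n => (num n).enc.length ≤ 15 * n + 3) ?_ ?_ n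
  · show (num 0).enc.length ≤ _
    rw [num_zero]
    simp [Tm.enc]
  · intro b n h ih
    show (num (Nat.bit b n)).enc.length ≤ _
    rw [num_bit b n h]
    cases b with
    | true =>
      simp only [cond_true, Tm.enc, List.length_cons, List.length_append, List.length_nil,
        Nat.bit]
      omega
    | false =>
      simp only [cond_false, Tm.enc, List.length_cons, List.length_append, List.length_nil,
        Nat.bit]
      have : n ≠ 0 := fun h' => by simpa using h h'
      omega

section sizes

theorem size_zero' : Nat.size 0 = 0 := Nat.size_zero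

theorem size_dbl (n : ℕ) (h : n ≠ 0) : Nat.size (2 * n) = Nat.size n + 1 := by
  have h1 := Nat.size_bit (b := false) (n := n) (by simp [Nat.bit]; exact h)
  simpa [Nat.bit] using h1

theorem size_dbl1 (n : ℕ) : Nat.size (2 * n + 1) = Nat.size n + 1 := by
  have h1 := Nat.size_bit (b := true) (n := n) (by simp [Nat.bit])
  simpa [Nat.bit] using h1

theorem size_half (n : ℕ) (h : n ≠ 0) : Nat.size n = Nat.size (n / 2) + 1 := by
  rcases Nat.even_or_odd' n with ⟨k, rfl | rfl⟩
  · rw [size_dbl k (by omega)]
    congr 2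
    omega
  · rw [size_dbl1 k]
    congr 2
    omega

theorem and' (a b : Prop) : ((a → b → False) → False) ↔ a ∧ b := by tauto

theorem iff' (a b : Prop) : (((a → b) → (b → a) → False) → False) ↔ (a ↔ b) := by tauto

theorem or' (a b : Prop) : ((a → False) → b) ↔ (a ∨ b) := by tauto

/-- the standard structure satisfies BASIC -/
theorem nat_basic (O : Oracle) : ∀ φ ∈ basic, ∀ v : ℕ → ℕ, φ.sat (nat O) v := by
  intro φ hφ v
  generalize ha : v 0 = a
  generalize hb : v 1 = b
  generalize hc : v 2 = c
  generalize hd : v 3 = d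
  simp only [basic, List.mem_cons, List.not_mem_nil, or_false] at hφ
  rcases hφ with rfl | rfl | rfl | rfl | rfl | rfl | rfl | rfl | rfl | rfl | rfl | rfl | rfl | rfl |
    rfl | rfl | rfl | rfl | rfl | rfl | rfl | rfl | rfl | rfl | rfl | rfl | rfl | rfl | rfl | rfl |
    rfl | rfl
  all_goals simp only [Fm.sat, Tm.val, nat, ha, hb, hc, hd]
  all_goals try (first | omega | (intros; omega) | tauto)
  · refine (iff' _ _).2 ?_
    rw [and']
    constructor
    · rintro ⟨h1, h2⟩
      exact Nat.lt_of_le_of_ne h1 h2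
    · intro h
      exact ⟨by omega, fun h' => by omega⟩
  · intro h1 h2
    exact h1 (by omega)
  · intro h
    exact le_of_not_ge h
  · rw [and']
    rintro ⟨h1, h2⟩
    omega
  · rw [and']
    rintro ⟨h1, h2⟩
    omega
  · intro h
    rw [and']
    have h' : a ≠ 0 := h
    exact ⟨by simpa using size_dbl a h', by simpa using size_dbl1 a⟩
  · exact Nat.size_le_size
  · exact Nat.size_pow
  · simp
  · intro h
    have h' : a ≠ 0 := h
    rw [and']
    have e : (0 + 1 + 1 : ℕ) = 2 := rfl
    rw [e, size_dbl a h', size_dbl1 a]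
    have h1 : Nat.size (0 + 1) = 1 := by simp
    rw [h1]
    refine ⟨?_, ?_⟩ <;> ring
  · rw [mul_comm]
  · intro h
    rw [h, add_mul, pow_add]
  · rw [and']
    rintro ⟨h1, h2⟩
    rw [and']
    have h3 : a ≠ b := h2
    exact ⟨by omega, fun h' => by omega⟩
  · refine (iff' _ _).2 ?_
    omega
  · exact mul_comm _ _
  · exact mul_add _ _ _
  · intro h
    refine (iff' _ _).2 ?_
    exact Nat.mul_le_mul_left_iff (by omega)
  · intro h
    exact size_half a h
  · refine (iff' _ _).2 ?_
    rw [or']
    constructor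
    · intro h
      omega
    · rintro (h | h) <;> omega

end sizes

theorem nat_base (O : Oracle) {φ : Fm} (h : Base O φ) : ∀ v : ℕ → ℕ, φ.sat (nat O) v := by
  induction h with
  | basic φ h => exact nat_basic O φ h
  | pind φ _ =>
    intro v h0 h1 a
    have h0' : φ.sat (nat O) (cons 0 v) := (Fm.sat_inst (nat O) φ .zero v).1 h0
    induction a using Nat.strong_induction_on with
    | _ a ih =>
      rcases Nat.eq_zero_or_pos a with rfl | ha
      · exact h0'
      · refine h1 a ?_
        rw [Fm.sat_sub]
        have e : ∀ w : ℕ → ℕ, w = cons (a / 2) v → φ.sat (nat O) w := by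
          rintro w rfl
          exact ih (a / 2) (by omega)
        refine e _ ?_
        funext i
        rcases i with _ | i <;> rfl
  | pos n hn =>
    intro v
    show O (str ((num n).val (nat O) v)) = true
    rw [val_num, hn]
  | neg n hn =>
    intro v h
    have h' : O (str ((num n).val (nat O) v)) = true := h
    rw [val_num, hn] at h'
    cases h'
  | gen φ _ ih => intro v a; exact ih _

/-! ### Locality -/

theorem length_str_le (i : ℕ) : (str i).length ≤ i.size := by
  unfold str
  rw [List.length_tail, List.length_reverse, Nat.size_eq_bits_len]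
  have h : (i + 1).size ≤ i.size + 1 := by
    rw [Nat.size_le]
    have := Nat.lt_size_self i
    rw [pow_succ]
    omega
  omega

theorem size_add_le (a b : ℕ) : (a + b).size ≤ a.size + b.size + 1 := by
  rw [Nat.size_le]
  have h1 := Nat.lt_size_self a
  have h2 := Nat.lt_size_self b
  have h3 : 2 ^ a.size ≤ 2 ^ (a.size + b.size) := Nat.pow_le_pow_right (by norm_num) (by omega)
  have h4 : 2 ^ b.size ≤ 2 ^ (a.size + b.size) := Nat.pow_le_pow_right (by norm_num) (by omega)
  rw [pow_succ]
  omega

theorem size_mul_le (a b : ℕ) : (a * b).size ≤ a.size + b.size := by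
  rw [Nat.size_le]
  rw [pow_add]
  exact Nat.mul_lt_mul'' (Nat.lt_size_self a) (Nat.lt_size_self b)

theorem size_le_self (a : ℕ) : a.size ≤ a := by
  rw [Nat.size_le]
  exact Nat.lt_two_pow_self

theorem tm_size (t : Tm) : ∃ q : Polynomial ℕ, ∀ (O : Oracle) (v : ℕ → ℕ) (N : ℕ),
    (∀ i, (v i).size ≤ N) → (t.val (nat O) v).size ≤ q.eval N := by
  induction t with
  | var i => exact ⟨Polynomial.X, fun O v N h => by rw [Polynomial.eval_X]; exact h i⟩
  | zero => exact ⟨0, fun O v N h => by simp [Tm.val, nat]⟩
  | succ t ih =>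
    obtain ⟨q, hq⟩ := ih
    refine ⟨q + Polynomial.C 2, fun O v N h => ?_⟩
    have h1 := hq O v N h
    have h2 := size_add_le (t.val (nat O) v) 1
    rw [Nat.size_one] at h2
    rw [Polynomial.eval_add, Polynomial.eval_C]
    show (t.val (nat O) v + 1).size ≤ _
    omega
  | add t u ih1 ih2 =>
    obtain ⟨q, hq⟩ := ih1
    obtain ⟨r, hr⟩ := ih2
    refine ⟨q + r + Polynomial.C 1, fun O v N h => ?_⟩
    have h1 := hq O v N h
    have h1' := hr O v N h
    have h2 := size_add_le (t.val (nat O) v) (u.val (nat O) v)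
    rw [Polynomial.eval_add, Polynomial.eval_add, Polynomial.eval_C]
    show (t.val (nat O) v + u.val (nat O) v).size ≤ _
    omega
  | mul t u ih1 ih2 =>
    obtain ⟨q, hq⟩ := ih1
    obtain ⟨r, hr⟩ := ih2
    refine ⟨q + r, fun O v N h => ?_⟩
    have h1 := hq O v N h
    have h1' := hr O v N h
    have h2 := size_mul_le (t.val (nat O) v) (u.val (nat O) v)
    rw [Polynomial.eval_add]
    show (t.val (nat O) v * u.val (nat O) v).size ≤ _
    omega
  | half t ih =>
    obtain ⟨q, hq⟩ := ih
    refine ⟨q, fun O v N h => ?_⟩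
    have h1 := hq O v N h
    show (t.val (nat O) v / 2).size ≤ _
    exact (Nat.size_le_size (Nat.div_le_self _ _)).trans h1
  | len t ih =>
    obtain ⟨q, hq⟩ := ih
    refine ⟨q, fun O v N h => ?_⟩
    have h1 := hq O v N h
    show ((t.val (nat O) v).size).size ≤ _
    exact (size_le_self _).trans h1
  | smash t u ih1 ih2 =>
    obtain ⟨q, hq⟩ := ih1
    obtain ⟨r, hr⟩ := ih2
    refine ⟨q * r + Polynomial.C 1, fun O v N h => ?_⟩
    have h1 := hq O v N h
    have h1' := hr O v N h
    rw [Polynomial.eval_add, Polynomial.eval_mul, Polynomial.eval_C]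
    show (2 ^ ((t.val (nat O) v).size * (u.val (nat O) v).size)).size ≤ _
    rw [Nat.size_pow]
    have := Nat.mul_le_mul h1 h1'
    omega

theorem bdd_loc {φ : Fm} (hφ : Bdd φ) : ∃ q : Polynomial ℕ, ∀ (N : ℕ) (v : ℕ → ℕ) (O O' : Oracle),
    (∀ i, (v i).size ≤ N) → (∀ u : List Bool, u.length ≤ q.eval N → O u = O' u) →
    (φ.sat (nat O) v ↔ φ.sat (nat O') v) := by
  induction hφ with
  | eq t u =>
    refine ⟨0, fun N v O O' _ _ => ?_⟩
    simp only [Fm.sat]
    rw [val_nat O O' v t, val_nat O O' v u]
  | le t u =>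
    refine ⟨0, fun N v O O' _ _ => ?_⟩
    simp only [Fm.sat]
    rw [val_nat O O' v t, val_nat O O' v u]
    exact Iff.rfl
  | orc t =>
    obtain ⟨q, hq⟩ := tm_size t
    refine ⟨q, fun N v O O' hv hO => ?_⟩
    show O (str (t.val (nat O) v)) = true ↔ O' (str (t.val (nat O') v)) = true
    rw [val_nat O O' v t, hO]
    exact (length_str_le _).trans (hq O' v N hv)
  | bot => exact ⟨0, fun N v O O' _ _ => Iff.rfl⟩
  | imp φ ψ _ _ ih1 ih2 =>
    obtain ⟨q, hq⟩ := ih1
    obtain ⟨r, hr⟩ := ih2
    refine ⟨q + r, fun N v O O' hv hO => ?_⟩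
    rw [Polynomial.eval_add] at hO
    simp only [Fm.sat]
    rw [hq N v O O' hv fun u hu => hO u (by omega), hr N v O O' hv fun u hu => hO u (by omega)]
  | ball t φ _ ih =>
    obtain ⟨r, hr⟩ := tm_size t
    obtain ⟨q, hq⟩ := ih
    refine ⟨q.comp (Polynomial.X + r), fun N v O O' hv hO => ?_⟩
    rw [Polynomial.eval_comp, Polynomial.eval_add, Polynomial.eval_X] at hO
    simp only [Fm.sat, Tm.val_shift]
    refine forall_congr' fun a => ?_
    show (a ≤ t.val (nat O) v → _) ↔ (a ≤ t.val (nat O') v → _)
    rw [val_nat O' O v t]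
    refine imp_congr_right fun ha => hq (N + r.eval N) _ O O' (fun i => ?_) hO
    rcases i with _ | i
    · have h1 : a.size ≤ (t.val (nat O) v).size := Nat.size_le_size ha
      have h2 := hr O v N hv
      show a.size ≤ _
      omega
    · have := hv i
      show (v i).size ≤ _
      omega

end Pool.Agent.W2helper61.RF

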