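import Pool.Agent.W2helper61.RF.TalB

/-! An oracle with an infinite polynomial hierarchy and a column of sound claims. -/

set_option autoImplicit false

namespace Pool.Agent.W2helper61.RF

open Pool.Agent.NPC Pool.Agent.H622R2 Pool.Agent.H620R2.Gauge Pool.Agent.H591R3.PHG
  Pool.Agent.TH678.GC Pool.Agent.W2helper58.GU
open Pool.Agent.W2helper61.LH (Ag lang_ag join_congr)

/-- claims about the oracle, in families -/
structure Claims where
  idx : List Bool → Option ℕ
  St : List Bool → Oracle → Prop
  loc : ∀ (x : List Bool) (O O' : Oracle), (∀ u : List Bool, u.length < x.length → O u = O' u) →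
    (St x O ↔ St x O')

/-- a stage of the construction -/
structure State where
  l : ℕ
  B : Oracle
  dec : ℕ → Option Bool

variable (C : Claims)

/-- the claims are sound -/
def Reg (O : Oracle) : Prop :=
  O [] = false ∧ ∀ x, O (true :: x) = true → (C.idx x).isSome ∧ C.St x O

/-- the oracles still possible -/
def Cls (s : State) (O : Oracle) : Prop :=
  Reg C O ∧ (∀ u : List Bool, u.length ≤ s.l → O u = s.B u) ∧
    ∀ x j b, C.idx x = some j → s.dec j = some b → s.l < x.length + 1 →
      (O (true :: x) = true ↔ b = true ∧ C.St x O)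

/-- recursion on the length -/
theorem fixl (F : List Bool → Oracle → Bool) :
    ∃ O : Oracle, ∀ u, O u = F u (fun v => if v.length < u.length then O v else false) := by
  let G : (u : List Bool) → ((v : List Bool) → (measure List.length).rel v u → Bool) → Bool :=
    fun u ih => F u (fun v => if h : v.length < u.length then ih v h else false)
  refine ⟨(measure List.length).wf.fix G, fun u => ?_⟩
  rw [WellFounded.fix_eq]
  rfl

variable {C}

theorem ext (s : State) (hB : Reg C s.B) (A' : Oracle)
    (hA : ∀ y : List Bool, y.length + 1 ≤ s.l → A' y = s.B (false :: y)) :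
    ∃ O, Cls C s O ∧ (∀ y, O (false :: y) = A' y) ∧
      ∀ x : List Bool, s.l < x.length + 1 → (O (true :: x) = true ↔
        ∃ j, C.idx x = some j ∧ s.dec j = some true ∧ C.St x O) := by
  classical
  obtain ⟨O, hO⟩ := fixl fun u P => match u with
    | [] => false
    | false :: y => A' y
    | true :: x => if x.length + 1 ≤ s.l then s.B (true :: x) else
        decide (∃ j, C.idx x = some j ∧ s.dec j = some true ∧ C.St x P)
  have h0 : O [] = false := hO []
  have h1 : ∀ y, O (false :: y) = A' y := fun y => hO (false :: y)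
  have h2 : ∀ x : List Bool, x.length + 1 ≤ s.l → O (true :: x) = s.B (true :: x) := by
    intro x hx
    rw [hO (true :: x)]
    simp only
    rw [if_pos hx]
  have h3 : ∀ x : List Bool, s.l < x.length + 1 → (O (true :: x) = true ↔
      ∃ j, C.idx x = some j ∧ s.dec j = some true ∧ C.St x O) := by
    intro x hx
    rw [hO (true :: x)]
    simp only
    rw [if_neg (by omega), decide_eq_true_eq]
    refine exists_congr fun j => and_congr_right fun _ => and_congr_right fun _ => ?_
    refine C.loc x _ _ fun u hu => ?_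
    rw [if_pos (by rw [List.length_cons]; omega)]
  have h4 : ∀ u : List Bool, u.length ≤ s.l → O u = s.B u := by
    intro u hu
    rcases u with _ | ⟨b, u⟩
    · rw [h0, hB.1]
    · rw [List.length_cons] at hu
      cases b with
      | false => rw [h1, hA u hu]
      | true => rw [h2 u hu]
  refine ⟨O, ⟨⟨h0, fun x hx => ?_⟩, h4, fun x j b hj hb hx => ?_⟩, h1, h3⟩
  · by_cases hl : x.length + 1 ≤ s.l
    · rw [h2 x hl] at hx
      obtain ⟨h5, h6⟩ := hB.2 x hx
      exact ⟨h5, (C.loc x _ _ fun u hu => h4 u (by omega)).2 h6⟩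
    · obtain ⟨j, h5, _, h7⟩ := (h3 x (by omega)).1 hx
      exact ⟨by rw [h5]; rfl, h7⟩
  · rw [h3 x hx]
    constructor
    · rintro ⟨j', h5, h6, h7⟩
      rw [hj] at h5
      cases h5
      rw [hb] at h6
      cases h6
      exact ⟨rfl, h7⟩
    · rintro ⟨rfl, h7⟩
      exact ⟨j, hj, hb, h7⟩

theorem cls_mono {s s' : State} (hl : s.l ≤ s'.l)
    (hd : ∀ j b, s.dec j = some b → s'.dec j = some b)
    (hB : Cls C s s'.B) {P : Oracle} (hP : Cls C s' P) : Cls C s P := by
  obtain ⟨h1, h2, h3⟩ := hP
  refine ⟨h1, fun u hu => ?_, fun x j b hj hb hx => ?_⟩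
  · rw [h2 u (by omega), hB.2.1 u hu]
  · by_cases hx' : s'.l < x.length + 1
    · exact h3 x j b hj (hd j b hb) hx'
    · rw [h2 _ (by rw [List.length_cons]; omega), hB.2.2 x j b hj hb hx]
      exact and_congr_right fun _ => C.loc x _ _ fun u hu => (h2 u (by omega)).symm

/-- the claims of the live families hold -/
def Live (C : Claims) (s : State) : Prop :=
  ∀ P, Cls C s P → ∀ x j, C.idx x = some j → s.dec j = some true → C.St x P

/-- good stages -/
def Good (C : Claims) (s : State) : Prop := Cls C s s.B ∧ Live C s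

/-- the relation between successive stages -/
def Step (C : Claims) (s s' : State) : Prop :=
  s.l ≤ s'.l ∧ (∀ j b, s.dec j = some b → s'.dec j = some b) ∧ Cls C s s'.B

theorem Step.cls {s s' : State} (h : Step C s s') {P : Oracle} (hP : Cls C s' P) : Cls C s P :=
  cls_mono h.1 h.2.1 h.2.2 hP

theorem Step.trans {s s' s'' : State} (h : Step C s s') (h' : Step C s' s'') : Step C s s'' :=
  ⟨h.1.trans h'.1, fun j b hb => h'.2.1 j b (h.2.1 j b hb), h.cls h'.2.2⟩

theorem step_fam (s : State) (hs : Good C s) (i : ℕ) (hi : ∀ j, i ≤ j → s.dec j = none) :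
    ∃ s', Step C s s' ∧ Good C s' ∧ (∀ j, i < j → s'.dec j = none) ∧
    ((∃ x, C.idx x = some i ∧ x.length ≤ s'.l ∧ ¬ C.St x s'.B) ∨ s'.dec i = some true) := by
  classical
  have hdec : ∀ c : Bool, ∀ j b, s.dec j = some b → Function.update s.dec i (some c) j = some b := by
    intro c j b hb
    rw [Function.update_of_ne, hb]
    rintro rfl
    rw [hi j le_rfl] at hb
    cases hb
  have hnone : ∀ c : Bool, ∀ j, i < j → Function.update s.dec i (some c) j = none := by
    intro c j hj
    rw [Function.update_of_ne (by omega), hi j hj.le]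
  by_cases h : ∃ O, Cls C s O ∧ ∃ x, C.idx x = some i ∧ ¬ C.St x O
  · obtain ⟨O, hO, x, hx, hS⟩ := h
    obtain ⟨B', hB', -, -⟩ := ext (C := C) ⟨max s.l (x.length + 1), O,
      Function.update s.dec i (some false)⟩ hO.1 (fun y => O (false :: y)) (fun _ _ => rfl)
    have h1 : Cls C s B' := cls_mono (s' := ⟨max s.l (x.length + 1), O,
      Function.update s.dec i (some false)⟩) (le_max_left _ _) (hdec false) hO hB'
    refine ⟨⟨max s.l (x.length + 1), B', Function.update s.dec i (some false)⟩,
      ⟨le_max_left _ _, hdec false, h1⟩, ⟨⟨hB'.1, fun _ _ => rfl, hB'.2.2⟩, ?_⟩, hnone false, Or.inl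
        ⟨x, hx, (Nat.le_succ _).trans (le_max_right _ _), ?_⟩⟩
    · intro P hP y j hy hj
      refine hs.2 P (cls_mono (s' := ⟨max s.l (x.length + 1), B',
        Function.update s.dec i (some false)⟩) (le_max_left _ _) (hdec false) h1 hP) y j hy ?_
      by_cases hji : j = i
      · subst hji
        simp at hj
      · simpa [Function.update_of_ne hji] using hj
    · intro h2
      exact hS ((C.loc x _ _ fun u hu => hB'.2.1 u (by
        show u.length ≤ max s.l (x.length + 1)
        omega)).1 h2)
  · push Not at h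
    obtain ⟨B', hB', -, -⟩ := ext (C := C) ⟨s.l, s.B,
      Function.update s.dec i (some true)⟩ hs.1.1 (fun y => s.B (false :: y)) (fun _ _ => rfl)
    have h1 : Cls C s B' := cls_mono (s := s)
      (s' := ⟨s.l, s.B, Function.update s.dec i (some true)⟩) le_rfl (hdec true) hs.1 hB'
    refine ⟨⟨s.l, B', Function.update s.dec i (some true)⟩,
      ⟨le_rfl, hdec true, h1⟩, ⟨⟨hB'.1, fun _ _ => rfl, hB'.2.2⟩, ?_⟩, hnone true,
        Or.inr (by simp)⟩
    intro P hP y j hy hj
    have h2 : Cls C s P := cls_mono (s := s)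
      (s' := ⟨s.l, B', Function.update s.dec i (some true)⟩) le_rfl (hdec true) h1 hP
    by_cases hji : j = i
    · subst hji
      exact h P h2 y hy
    · exact hs.2 P h2 y j hy (by simpa [Function.update_of_ne hji] using hj)

theorem acc_ag' (M : Alg) (A : Oracle) (y : List Bool) :
    ∃ ℓ, ∀ A', Ag ℓ A A' → LH.acc M A y = LH.acc M A' y := by
  obtain ⟨qb, hqb⟩ := LH.acc_congr M
  exact ⟨qb.eval y.length, fun A' hA' => hqb _ _ _ fun q hq => (hA' q hq).symm⟩

theorem quant_ag' (M : Alg) (A : Oracle) (m : ℕ) : ∀ (k : ℕ) (b : Bool) (y : List Bool),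
    ∃ ℓ, ∀ A', Ag ℓ A A' → (Quant m (LH.acc M A) k b y ↔ Quant m (LH.acc M A') k b y) := by
  intro k
  induction k with
  | zero =>
    intro b y
    obtain ⟨ℓ, hℓ⟩ := acc_ag' M A y
    refine ⟨ℓ, fun A' hA' => ?_⟩
    cases b <;> simp only [Quant, hℓ A' hA']
  | succ k ih =>
    intro b y
    set W := (List.finite_length_le Bool m).toFinset with hW
    choose f hf using fun w : List Bool => ih (!b) (pairBits w y)
    refine ⟨W.sup f, fun A' hA' => ?_⟩
    have key : ∀ w : List Bool, w.length ≤ m → (Quant m (LH.acc M A) k (!b) (pairBits w y) ↔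
        Quant m (LH.acc M A') k (!b) (pairBits w y)) := fun w hw =>
      hf w A' (hA'.mono (Finset.le_sup (f := f) (by simpa [hW] using hw)))
    cases b with
    | true =>
      simp only [Quant]
      exact exists_congr fun w => and_congr_right fun hw => key w hw
    | false =>
      simp only [Quant]
      exact forall_congr' fun w => imp_congr_right fun hw => key w hw

/-- the requirement for the hierarchy -/
def Hier (k : ℕ) (M : Alg) (p : Polynomial ℕ) (c : Bool) (x : List Bool) (O : Oracle) : Prop :=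
  (Quant (p.eval x.length) (LH.acc M O) k true x ↔
    ¬ (x ∈ tlang k (fun y => O (false :: y)) ↔ c = true))

theorem hier_ag (k : ℕ) (M : Alg) (p : Polynomial ℕ) (c : Bool) (x : List Bool) (O : Oracle)
    (h : Hier k M p c x O) : ∃ ℓ, ∀ O', Ag ℓ O O' → Hier k M p c x O' := by
  obtain ⟨ℓ₁, h1⟩ := tlang_ag k (fun y => O (false :: y)) x
  obtain ⟨ℓ₂, h2⟩ := quant_ag' M O (p.eval x.length) k true x
  refine ⟨max (ℓ₁ + 1) ℓ₂, fun O' hO' => ?_⟩
  unfold Hier at h ⊢
  rwa [← h1 (fun y => O' (false :: y)) fun u hu => hO' (false :: u) (by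
    rw [List.length_cons]; omega), ← h2 O' (hO'.mono (le_max_right _ _))]

theorem step_PH (s : State) (hs : Good C s) (k : ℕ) (M : Alg) (p : Polynomial ℕ) (c : Bool) :
    ∃ s', Step C s s' ∧ Good C s' ∧ s.l < s'.l ∧ s'.dec = s.dec ∧
      ∃ x, ∀ P, Cls C s' P → Hier k M p c x P := by
  classical
  obtain ⟨A', h1, x, h2⟩ := low_key
    (fun x => if x.length + 1 ≤ s.l then s.B (true :: x) else
      decide (∃ j, C.idx x = some j ∧ s.dec j = some true)) k M p (fun y => s.B (false :: y)) s.l c
  obtain ⟨O, h3, h4, h5⟩ := ext s hs.1.1 A' fun y hy => h1 y (by omega)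
  have h6 : O = join A' (fun x => if x.length + 1 ≤ s.l then s.B (true :: x) else
      decide (∃ j, C.idx x = some j ∧ s.dec j = some true)) := by
    funext u
    rcases u with _ | ⟨b, u⟩
    · exact h3.1.1
    · cases b with
      | false => exact h4 u
      | true =>
        show O (true :: u) = (if u.length + 1 ≤ s.l then s.B (true :: u) else
          decide (∃ j, C.idx u = some j ∧ s.dec j = some true))
        by_cases hu : u.length + 1 ≤ s.l
        · rw [if_pos hu]
          exact h3.2.1 _ (by rw [List.length_cons]; exact hu)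
        · rw [if_neg hu, Bool.eq_iff_iff, h5 u (by omega), decide_eq_true_eq]
          constructor
          · rintro ⟨j, a1, a2, _⟩
            exact ⟨j, a1, a2⟩
          · rintro ⟨j, a1, a2⟩
            exact ⟨j, a1, a2, hs.2 O h3 u j a1 a2⟩
  have h7 : Hier k M p c x O := by
    unfold Hier
    rw [show (fun y => O (false :: y)) = A' from funext h4, h6]
    exact h2
  obtain ⟨ℓ, hℓ⟩ := hier_ag k M p c x O h7
  have h8 : Step C s ⟨max ℓ (s.l + 1), O, s.dec⟩ :=
    ⟨(Nat.le_succ _).trans (le_max_right _ _), fun _ _ h => h, h3⟩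
  refine ⟨⟨max ℓ (s.l + 1), O, s.dec⟩, h8, ⟨⟨h3.1, fun _ _ => rfl, fun y j b hj hb hy => ?_⟩,
    fun P hP y j hy hj => hs.2 P (h8.cls hP) y j hy hj⟩, (Nat.lt_succ_self _).trans_le
      (le_max_right _ _), rfl, x, fun P hP => hℓ P fun u hu =>
        hP.2.1 u (hu.trans (le_max_left _ _))⟩
  refine h3.2.2 y j b hj hb ?_
  have : max ℓ (s.l + 1) < y.length + 1 := hy
  omega

theorem good_zero : Good C ⟨0, fun _ => false, fun _ => none⟩ := by
  refine ⟨⟨⟨rfl, fun x hx => ?_⟩, fun _ _ => rfl, fun x j b _ hb => ?_⟩, fun P _ x j _ hj => ?_⟩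
  · simp at hx
  · simp at hb
  · simp at hj

/-- A sound column of claims with an infinite hierarchy. -/
theorem claims_main (C : Claims) : ∃ O : Oracle,
    (∀ k : ℕ, ∃ L : Set (List Bool), (∀ x ∈ L, x = List.replicate x.length true) ∧
      IsSig O (k + 1) L ∧ ¬ IsSig O k L ∧ ¬ IsSig O k Lᶜ) ∧ O [] = false ∧
    (∀ x, O (true :: x) = true → (C.idx x).isSome ∧ C.St x O) ∧
    ∀ j, (∀ x, C.idx x = some j → C.St x O) →
      ∃ ℓ, ∀ x, C.idx x = some j → ℓ < x.length → O (true :: x) = true := by
  classical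
  have hcn := CC.poly_countable
  have hc2 : Countable Alg := Alg.countable
  have hne : Nonempty (ℕ × Alg × Polynomial ℕ × Bool) := by
    obtain ⟨M, _, _⟩ := LH.exists_acc (O := fun _ => false) (IsFP.of_poly (A := fun _ => false)
      (F := fun x => x) Poly.id)
    exact ⟨(0, M, 0, true)⟩
  obtain ⟨e, he⟩ := exists_surjective_nat (ℕ × Alg × Polynomial ℕ × Bool)
  have step : ∀ (q : ℕ) (s : State), Good C s ∧ (∀ j, q ≤ j → s.dec j = none) →
      ∃ s', Step C s s' ∧ (Good C s' ∧ ∀ j, q + 1 ≤ j → s'.dec j = none) ∧ s.l < s'.l ∧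
      ((∃ x, C.idx x = some q ∧ ∀ P, Cls C s' P → ¬ C.St x P) ∨ s'.dec q = some true) ∧
      ∃ x, ∀ P, Cls C s' P → Hier (e q).1 (e q).2.1 (e q).2.2.1 (e q).2.2.2 x P := by
    rintro q s ⟨hs, hq⟩
    obtain ⟨s₁, h1, h2, h3, h4⟩ := step_fam s hs q hq
    obtain ⟨s₂, k1, k2, k3, k4, k5⟩ := step_PH s₁ h2 (e q).1 (e q).2.1 (e q).2.2.1 (e q).2.2.2
    refine ⟨s₂, h1.trans k1, ⟨k2, fun j hj => by rw [k4]; exact h3 j hj⟩, h1.1.trans_lt k3,
      ?_, k5⟩
    rcases h4 with ⟨x, hx, hl, hS⟩ | h4
    · refine Or.inl ⟨x, hx, fun P hP hSP => hS ((C.loc x _ _ fun u hu => ?_).1 hSP)⟩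
      exact (k1.cls hP).2.1 u (by omega)
    · exact Or.inr (by rw [k4]; exact h4)
  choose! f hf using step
  let g : ℕ → State := fun q => Nat.rec ⟨0, fun _ => false, fun _ => none⟩ (fun q s => f q s) q
  have hg1 : ∀ q, g (q + 1) = f q (g q) := fun q => rfl
  have hg : ∀ q, Good C (g q) ∧ ∀ j, q ≤ j → (g q).dec j = none := by
    intro q
    induction q with
    | zero => exact ⟨good_zero, fun _ _ => rfl⟩
    | succ q ih => rw [hg1]; exact (hf q (g q) ih).2.1
  have hst : ∀ q d, Step C (g q) (g (q + d)) := by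
    intro q d
    induction d with
    | zero => exact ⟨le_rfl, fun _ _ h => h, (hg q).1.1⟩
    | succ d ih =>
      refine ih.trans ?_
      have h1 := (hf (q + d) (g (q + d)) (hg _)).1
      rwa [← hg1] at h1
  have hst' : ∀ q q', q ≤ q' → Step C (g q) (g q') := by
    intro q q' h
    obtain ⟨d, rfl⟩ := Nat.exists_eq_add_of_le h
    exact hst q d
  have hl : ∀ q, q ≤ (g q).l := by
    intro q
    induction q with
    | zero => exact Nat.zero_le _
    | succ q ih =>
      have h1 := (hf q (g q) (hg _)).2.2.1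
      rw [← hg1] at h1
      omega
  set O : Oracle := fun u => (g u.length).B u with hO
  have hag : ∀ q (u : List Bool), u.length ≤ (g q).l → O u = (g q).B u := by
    intro q u hu
    rcases le_total q u.length with h | h
    · exact (hst' _ _ h).2.2.2.1 u hu
    · exact ((hst' _ _ h).2.2.2.1 u (hl _)).symm
  have hcls : ∀ q, Cls C (g q) O := by
    intro q
    refine ⟨⟨(hg 0).1.1.1.1, fun x hx => ?_⟩, hag q, fun x j b hj hb hx => ?_⟩
    · have h1 := hl (x.length + 1)
      rw [hag (x.length + 1) _ (by rw [List.length_cons]; omega)] at hx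
      obtain ⟨h2, h3⟩ := (hg (x.length + 1)).1.1.1.2 x hx
      exact ⟨h2, (C.loc x _ _ fun u hu => hag (x.length + 1) u (by omega)).2 h3⟩
    · have h1 := hl (max q (x.length + 1))
      have h1' := le_max_right q (x.length + 1)
      have h2 := (hst' q _ (le_max_left q (x.length + 1))).2.2.2.2 x j b hj hb hx
      rw [hag (max q (x.length + 1)) _ (by rw [List.length_cons]; omega), h2]
      refine and_congr_right fun _ => C.loc x _ _ fun u hu => ?_
      exact (hag (max q (x.length + 1)) u (by omega)).symm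
  have hjoin : O = join (fun y => O (false :: y)) (fun x => O (true :: x)) := by
    funext u
    rcases u with _ | ⟨b, u⟩
    · exact (hcls 0).1.1
    · cases b <;> rfl
  refine ⟨O, fun k => ⟨tlang k (fun y => O (false :: y)), fun x hx => hx.1, ?_, ?_, ?_⟩,
    (hcls 0).1.1, (hcls 0).1.2, fun j hj => ?_⟩
  · have := tlang_sig (fun y => O (false :: y)) (fun x => O (true :: x)) k
    rwa [← hjoin] at this
  · rintro ⟨V, p, hV, hL⟩
    obtain ⟨M, _, rfl⟩ := LH.exists_acc hV
    obtain ⟨q, hq⟩ := he (k, M, p, true)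
    obtain ⟨x, hx⟩ := (hf q (g q) (hg q)).2.2.2.2
    rw [hq] at hx
    have h1 := hx O (by rw [← hg1]; exact hcls (q + 1))
    unfold Hier at h1
    simp only [iff_true] at h1
    rw [← hL x] at h1
    exact (iff_not_self h1)
  · rintro ⟨V, p, hV, hL⟩
    obtain ⟨M, _, rfl⟩ := LH.exists_acc hV
    obtain ⟨q, hq⟩ := he (k, M, p, false)
    obtain ⟨x, hx⟩ := (hf q (g q) (hg q)).2.2.2.2
    rw [hq] at hx
    have h1 := hx O (by rw [← hg1]; exact hcls (q + 1))
    unfold Hier at h1
    rw [← hL x] at h1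
    simp only [Bool.false_eq_true, iff_false, not_not] at h1
    rw [Set.mem_compl_iff] at h1
    exact (iff_not_self h1.symm)
  · rcases (hf j (g j) (hg j)).2.2.2.1 with ⟨x, hx, h1⟩ | h1
    · exact absurd (hj x hx) (h1 O (by rw [← hg1]; exact hcls (j + 1)))
    · rw [← hg1] at h1
      refine ⟨(g (j + 1)).l, fun x hx hxl => ?_⟩
      rw [(hcls (j + 1)).2.2 x j true hx h1 (by omega)]
      exact ⟨rfl, hj x hx⟩

end Pool.Agent.W2helper61.RF
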