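import Pool.Agent.W2helper61.RF.Syn

/-! Substitution, soundness, injectivity of the codes. -/

set_option autoImplicit false

namespace Pool.Agent.W2helper61.RF

open Pool.Agent.NPC Pool.Agent.H620R2.Gauge

variable {M : Type} (s : Str M)

theorem Tm.val_sub (ρ : ℕ → Tm) (v : ℕ → M) (t : Tm) :
    (t.sub ρ).val s v = t.val s (fun i => (ρ i).val s v) := by
  induction t with
  | var i => rfl
  | zero => rfl
  | succ t ih => simp only [Tm.sub, Tm.val, ih]
  | add t u ih1 ih2 => simp only [Tm.sub, Tm.val, ih1, ih2]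
  | mul t u ih1 ih2 => simp only [Tm.sub, Tm.val, ih1, ih2]
  | half t ih => simp only [Tm.sub, Tm.val, ih]
  | len t ih => simp only [Tm.sub, Tm.val, ih]
  | smash t u ih1 ih2 => simp only [Tm.sub, Tm.val, ih1, ih2]

theorem Tm.val_shift (a : M) (v : ℕ → M) (t : Tm) : (t.sub shift).val s (cons a v) = t.val s v := by
  rw [Tm.val_sub]
  rfl

theorem up_val (ρ : ℕ → Tm) (a : M) (v : ℕ → M) :
    (fun i => (up ρ i).val s (cons a v)) = cons a (fun i => (ρ i).val s v) := by
  funext i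
  rcases i with _ | i
  · rfl
  · exact Tm.val_shift s a v (ρ i)

theorem Fm.sat_sub (φ : Fm) : ∀ (ρ : ℕ → Tm) (v : ℕ → M),
    (φ.sub ρ).sat s v ↔ φ.sat s (fun i => (ρ i).val s v) := by
  induction φ with
  | eq t u => intro ρ v; simp only [Fm.sub, Fm.sat, Tm.val_sub]
  | le t u => intro ρ v; simp only [Fm.sub, Fm.sat, Tm.val_sub]
  | orc t => intro ρ v; simp only [Fm.sub, Fm.sat, Tm.val_sub]
  | bot => intro ρ v; simp only [Fm.sub, Fm.sat]
  | imp φ ψ ih1 ih2 => intro ρ v; simp only [Fm.sub, Fm.sat, ih1, ih2]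
  | all φ ih =>
    intro ρ v
    simp only [Fm.sub, Fm.sat, ih, up_val]

theorem inst_val (t : Tm) (v : ℕ → M) :
    (fun i => (inst t i).val s v) = cons (t.val s v) v := by
  funext i
  rcases i with _ | i <;> rfl

theorem Fm.sat_inst (φ : Fm) (t : Tm) (v : ℕ → M) :
    (φ.sub (inst t)).sat s v ↔ φ.sat s (cons (t.val s v) v) := by
  rw [Fm.sat_sub, inst_val]

theorem Fm.sat_shift (φ : Fm) (a : M) (v : ℕ → M) :
    (φ.sub shift).sat s (cons a v) ↔ φ.sat s v := by
  rw [Fm.sat_sub]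
  rfl

theorem LAx.sound {φ : Fm} (h : LAx φ) : ∀ v : ℕ → M, φ.sat s v := by
  induction h with
  | k φ ψ => intro v h1 _; exact h1
  | s φ ψ χ => intro v h1 h2 h3; exact h1 h3 (h2 h3)
  | dn φ => intro v h1; exact Classical.byContradiction h1
  | inst φ t => intro v h1; exact (Fm.sat_inst s φ t v).2 (h1 _)
  | dist φ ψ => intro v h1 h2 a; exact h1 a (h2 a)
  | vac φ => intro v h1 a; exact (Fm.sat_shift s φ a v).2 h1
  | refl t => intro v; exact rfl
  | leib φ t u =>
    intro v h1 h2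
    rw [Fm.sat_inst] at h2 ⊢
    have h3 : t.val s v = u.val s v := h1
    rwa [← h3]
  | gen φ _ ih => intro v a; exact ih _

theorem Prf.sound {O : Oracle} {A : Set Fm} (hM : Models s O A) {π : List Fm} (h : Prf O A π) :
    ∀ φ ∈ π, ∀ v : ℕ → M, φ.sat s v := by
  induction h with
  | nil => intro φ h; simp at h
  | ax φ π _ hφ ih =>
    intro ψ hψ v
    rcases List.mem_cons.1 hψ with rfl | hψ
    · rcases hφ with hφ | hφ
      · exact hφ.sound s v
      · exact hM ψ hφ v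
    · exact ih ψ hψ v
  | mp φ ψ π _ h1 h2 ih =>
    intro χ hχ v
    rcases List.mem_cons.1 hχ with rfl | hχ
    · exact ih _ h1 v (ih _ h2 v)
    · exact ih χ hχ v

theorem PfOf.sound {O : Oracle} {A : Set Fm} (hM : Models s O A) {φ : Fm} {π : List Fm}
    (h : PfOf O A φ π) (v : ℕ → M) : φ.sat s v := by
  obtain ⟨h1, h2⟩ := h
  exact h1.sound s hM φ (List.mem_of_mem_head? h2) v

/-! ### Coincidence -/

theorem Tm.val_congr {k : ℕ} {t : Tm} (ht : t.Below k) {v w : ℕ → M} (h : ∀ i < k, v i = w i) :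
    t.val s v = t.val s w := by
  induction t with
  | var i => exact h i ht
  | zero => rfl
  | succ t ih => simp only [Tm.val, ih ht]
  | add t u ih1 ih2 => simp only [Tm.val, ih1 ht.1, ih2 ht.2]
  | mul t u ih1 ih2 => simp only [Tm.val, ih1 ht.1, ih2 ht.2]
  | half t ih => simp only [Tm.val, ih ht]
  | len t ih => simp only [Tm.val, ih ht]
  | smash t u ih1 ih2 => simp only [Tm.val, ih1 ht.1, ih2 ht.2]

theorem Fm.sat_congr (φ : Fm) : ∀ {k : ℕ} (_ : φ.Below k) {v w : ℕ → M} (_ : ∀ i < k, v i = w i),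
    φ.sat s v ↔ φ.sat s w := by
  induction φ with
  | eq t u => intro k hφ v w h; simp only [Fm.sat, Tm.val_congr s hφ.1 h, Tm.val_congr s hφ.2 h]
  | le t u => intro k hφ v w h; simp only [Fm.sat, Tm.val_congr s hφ.1 h, Tm.val_congr s hφ.2 h]
  | orc t =>
    intro k hφ v w h
    have hφ' : t.Below k := hφ
    simp only [Fm.sat, Tm.val_congr s hφ' h]
  | bot => intro k _ v w _; simp only [Fm.sat]
  | imp φ ψ ih1 ih2 =>
    intro k hφ v w h
    simp only [Fm.sat, ih1 hφ.1 h, ih2 hφ.2 h]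
  | all φ ih =>
    intro k hφ v w h
    simp only [Fm.sat]
    refine forall_congr' fun a => ih (k := k + 1) hφ fun i hi => ?_
    rcases i with _ | i
    · rfl
    · exact h i (by omega)

theorem Tm.Below.mono {k k' : ℕ} (h : k ≤ k') {t : Tm} (ht : t.Below k) : t.Below k' := by
  induction t with
  | var i => exact lt_of_lt_of_le ht h
  | zero => trivial
  | succ t ih => exact ih ht
  | add t u ih1 ih2 => exact ⟨ih1 ht.1, ih2 ht.2⟩
  | mul t u ih1 ih2 => exact ⟨ih1 ht.1, ih2 ht.2⟩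
  | half t ih => exact ih ht
  | len t ih => exact ih ht
  | smash t u ih1 ih2 => exact ⟨ih1 ht.1, ih2 ht.2⟩

theorem Fm.Below.mono {φ : Fm} : ∀ {k k' : ℕ} (_ : k ≤ k') (_ : φ.Below k), φ.Below k' := by
  induction φ with
  | eq t u => intro k k' h hφ; exact ⟨Tm.Below.mono h hφ.1, Tm.Below.mono h hφ.2⟩
  | le t u => intro k k' h hφ; exact ⟨Tm.Below.mono h hφ.1, Tm.Below.mono h hφ.2⟩
  | orc t => intro k k' h hφ; exact Tm.Below.mono h hφ
  | bot => intro k k' _ _; trivial
  | imp φ ψ ih1 ih2 => intro k k' h hφ; exact ⟨ih1 h hφ.1, ih2 h hφ.2⟩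
  | all φ ih => intro k k' h hφ; exact ih (Nat.succ_le_succ h) hφ

/-! ### The codes are injective -/

theorem rep_inj : ∀ (i j : ℕ) {r r' : List Bool},
    List.replicate i true ++ false :: r = List.replicate j true ++ false :: r' → i = j ∧ r = r' := by
  intro i
  induction i with
  | zero =>
    intro j r r' h
    cases j with
    | zero => simpa using h
    | succ j => simp [List.replicate_succ] at h
  | succ i ih =>
    intro j r r' h
    cases j with
    | zero => simp [List.replicate_succ] at h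
    | succ j =>
      simp only [List.replicate_succ, List.cons_append, List.cons.injEq, true_and] at h
      obtain ⟨h1, h2⟩ := ih j h
      exact ⟨by omega, h2⟩

theorem Tm.enc_inj (t : Tm) : ∀ (t' : Tm) {r r' : List Bool}, t.enc ++ r = t'.enc ++ r' →
    t = t' ∧ r = r' := by
  induction t with
  | var i =>
    intro t' r r' h
    cases t' <;> simp [Tm.enc] at h ⊢
    exact rep_inj _ _ h
  | zero =>
    intro t' r r' h
    cases t' <;> simp [Tm.enc] at h ⊢
    exact h
  | succ t ih =>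
    intro t' r r' h
    cases t' <;> simp [Tm.enc] at h ⊢
    exact ih _ h
  | add t u ih1 ih2 =>
    intro t' r r' h
    cases t' <;> simp [Tm.enc] at h ⊢
    obtain ⟨h1, h2⟩ := ih1 _ h
    obtain ⟨h3, h4⟩ := ih2 _ h2
    exact ⟨⟨h1, h3⟩, h4⟩
  | mul t u ih1 ih2 =>
    intro t' r r' h
    cases t' <;> simp [Tm.enc] at h ⊢
    obtain ⟨h1, h2⟩ := ih1 _ h
    obtain ⟨h3, h4⟩ := ih2 _ h2
    exact ⟨⟨h1, h3⟩, h4⟩
  | half t ih =>
    intro t' r r' h
    cases t' <;> simp [Tm.enc] at h ⊢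
    exact ih _ h
  | len t ih =>
    intro t' r r' h
    cases t' <;> simp [Tm.enc] at h ⊢
    exact ih _ h
  | smash t u ih1 ih2 =>
    intro t' r r' h
    cases t' <;> simp [Tm.enc] at h ⊢
    obtain ⟨h1, h2⟩ := ih1 _ h
    obtain ⟨h3, h4⟩ := ih2 _ h2
    exact ⟨⟨h1, h3⟩, h4⟩

theorem Fm.enc_inj (φ : Fm) : ∀ (φ' : Fm) {r r' : List Bool}, φ.enc ++ r = φ'.enc ++ r' →
    φ = φ' ∧ r = r' := by
  induction φ with
  | eq t u =>
    intro φ' r r' h
    cases φ' <;> simp [Fm.enc] at h ⊢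
    obtain ⟨h1, h2⟩ := Tm.enc_inj _ _ h
    obtain ⟨h3, h4⟩ := Tm.enc_inj _ _ h2
    exact ⟨⟨h1, h3⟩, h4⟩
  | le t u =>
    intro φ' r r' h
    cases φ' <;> simp [Fm.enc] at h ⊢
    obtain ⟨h1, h2⟩ := Tm.enc_inj _ _ h
    obtain ⟨h3, h4⟩ := Tm.enc_inj _ _ h2
    exact ⟨⟨h1, h3⟩, h4⟩
  | orc t =>
    intro φ' r r' h
    cases φ' <;> simp [Fm.enc] at h ⊢
    exact Tm.enc_inj _ _ h
  | bot =>
    intro φ' r r' h
    cases φ' <;> simp [Fm.enc] at h ⊢
    exact h
  | imp φ ψ ih1 ih2 =>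
    intro φ' r r' h
    cases φ' <;> simp [Fm.enc] at h ⊢
    obtain ⟨h1, h2⟩ := ih1 _ h
    obtain ⟨h3, h4⟩ := ih2 _ h2
    exact ⟨⟨h1, h3⟩, h4⟩
  | all φ ih =>
    intro φ' r r' h
    cases φ' <;> simp [Fm.enc] at h ⊢
    exact ih _ h

theorem Fm.enc_injective : Function.Injective Fm.enc := by
  intro φ φ' h
  exact (Fm.enc_inj φ φ' (r := []) (r' := []) (by rw [h])).1

theorem Fm.countable : Countable Fm := Fm.enc_injective.countable

end Pool.Agent.W2helper61.RF
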