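import Pool.Agent.H620R2.Gauge.Defs
import Mathlib.Data.Nat.Size

/-!
# Bounded arithmetic relative to an oracle: syntax, semantics, proofs

The language of Buss's bounded arithmetic with one more unary relation symbol `α` for the oracle.
-/

set_option autoImplicit false

namespace Pool.Agent.W2helper61.RF

open Pool.Agent.NPC Pool.Agent.H620R2.Gauge

/-- Terms: variables (numbered as usual with de Bruijn indices), `0`, `S t`, `s + t`, `s · t`,
`⌊t / 2⌋`, the length `|t|` and `s # t`. -/
inductive Tm : Type
  | var (i : ℕ)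
  | zero
  | succ (t : Tm)
  | add (s t : Tm)
  | mul (s t : Tm)
  | half (t : Tm)
  | len (t : Tm)
  | smash (s t : Tm)

/-- Formulas: `s = t`, `s ≤ t`, `α(t)`, falsity, implication and universal quantification (of the
variable number `0`). -/
inductive Fm : Type
  | eq (s t : Tm)
  | le (s t : Tm)
  | orc (t : Tm)
  | bot
  | imp (φ ψ : Fm)
  | all (φ : Fm)

/-! ### Strings -/

/-- the string of a term -/
def Tm.enc : Tm → List Bool
  | .var i => false :: false :: false :: (List.replicate i true ++ [false])
  | .zero => [false, false, true]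
  | .succ t => false :: true :: false :: t.enc
  | .add s t => false :: true :: true :: (s.enc ++ t.enc)
  | .mul s t => true :: false :: false :: (s.enc ++ t.enc)
  | .half t => true :: false :: true :: t.enc
  | .len t => true :: true :: false :: t.enc
  | .smash s t => true :: true :: true :: (s.enc ++ t.enc)

/-- the string of a formula -/
def Fm.enc : Fm → List Bool
  | .eq s t => false :: false :: false :: (s.enc ++ t.enc)
  | .le s t => false :: false :: true :: (s.enc ++ t.enc)
  | .orc t => false :: true :: false :: t.enc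
  | .bot => [false, true, true]
  | .imp φ ψ => true :: false :: (φ.enc ++ ψ.enc)
  | .all φ => true :: true :: φ.enc

/-- the string of a list of formulas -/
def encPf : List Fm → List Bool
  | [] => [false]
  | φ :: π => true :: (φ.enc ++ encPf π)

/-! ### Substitution -/

/-- simultaneous substitution of terms for the variables -/
def Tm.sub (ρ : ℕ → Tm) : Tm → Tm
  | .var i => ρ i
  | .zero => .zero
  | .succ t => .succ (t.sub ρ)
  | .add s t => .add (s.sub ρ) (t.sub ρ)
  | .mul s t => .mul (s.sub ρ) (t.sub ρ)
  | .half t => .half (t.sub ρ)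
  | .len t => .len (t.sub ρ)
  | .smash s t => .smash (s.sub ρ) (t.sub ρ)

/-- the variables, each with its number increased by one -/
def shift : ℕ → Tm := fun i => .var (i + 1)

/-- the substitution below a quantifier -/
def up (ρ : ℕ → Tm) : ℕ → Tm
  | 0 => .var 0
  | i + 1 => (ρ i).sub shift

/-- simultaneous substitution of terms for the free variables -/
def Fm.sub : (ℕ → Tm) → Fm → Fm
  | ρ, .eq s t => .eq (s.sub ρ) (t.sub ρ)
  | ρ, .le s t => .le (s.sub ρ) (t.sub ρ)
  | ρ, .orc t => .orc (t.sub ρ)
  | _, .bot => .bot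
  | ρ, .imp φ ψ => .imp (φ.sub ρ) (ψ.sub ρ)
  | ρ, .all φ => .all (φ.sub (up ρ))

/-- the substitution of `t` for the variable `0`; the numbers of the others decrease by one -/
def inst (t : Tm) : ℕ → Tm
  | 0 => t
  | i + 1 => .var i

/-! ### Truth -/

/-- A structure for the language. -/
structure Str (M : Type) where
  zero : M
  succ : M → M
  add : M → M → M
  mul : M → M → M
  half : M → M
  len : M → M
  smash : M → M → M
  le : M → M → Prop
  orc : M → Prop

/-- an assignment with one more value, for the variable `0` -/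
def cons {M : Type} (a : M) (v : ℕ → M) : ℕ → M
  | 0 => a
  | i + 1 => v i

/-- the value of a term -/
def Tm.val {M : Type} (s : Str M) (v : ℕ → M) : Tm → M
  | .var i => v i
  | .zero => s.zero
  | .succ t => s.succ (t.val s v)
  | .add t u => s.add (t.val s v) (u.val s v)
  | .mul t u => s.mul (t.val s v) (u.val s v)
  | .half t => s.half (t.val s v)
  | .len t => s.len (t.val s v)
  | .smash t u => s.smash (t.val s v) (u.val s v)

/-- truth of a formula in a structure -/
def Fm.sat {M : Type} (s : Str M) : (ℕ → M) → Fm → Prop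
  | v, .eq t u => t.val s v = u.val s v
  | v, .le t u => s.le (t.val s v) (u.val s v)
  | v, .orc t => s.orc (t.val s v)
  | _, .bot => False
  | v, .imp φ ψ => φ.sat s v → ψ.sat s v
  | v, .all φ => ∀ a : M, φ.sat s (cons a v)

/-- The standard structure relative to the oracle `O`: the numbers, with `|n|` the length of the
binary representation, `m # n = 2 ^ (|m| · |n|)`, and `α(n)` if the oracle answers `1` to the
string number `n`. -/
def nat (O : Oracle) : Str ℕ where
  zero := 0
  succ := fun n => n + 1
  add := fun m n => m + n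
  mul := fun m n => m * n
  half := fun n => n / 2
  len := fun n => n.size
  smash := fun m n => 2 ^ (m.size * n.size)
  le := fun m n => m ≤ n
  orc := fun n => O (str n) = true

/-! ### Classes of formulas -/

/-- all variables of the term have numbers less than `k` -/
def Tm.Below (k : ℕ) : Tm → Prop
  | .var i => i < k
  | .zero => True
  | .succ t => t.Below k
  | .add s t => s.Below k ∧ t.Below k
  | .mul s t => s.Below k ∧ t.Below k
  | .half t => t.Below k
  | .len t => t.Below k
  | .smash s t => s.Below k ∧ t.Below k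

/-- all free variables of the formula have numbers less than `k` -/
def Fm.Below : ℕ → Fm → Prop
  | k, .eq s t => s.Below k ∧ t.Below k
  | k, .le s t => s.Below k ∧ t.Below k
  | k, .orc t => t.Below k
  | _, .bot => True
  | k, .imp φ ψ => φ.Below k ∧ ψ.Below k
  | k, .all φ => φ.Below (k + 1)

/-- negation -/
abbrev Fm.neg (φ : Fm) : Fm := .imp φ .bot

/-- conjunction -/
abbrev Fm.and (φ ψ : Fm) : Fm := .neg (.imp φ (.neg ψ))

/-- disjunction -/
abbrev Fm.or (φ ψ : Fm) : Fm := .imp (.neg φ) ψ

/-- equivalence -/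
abbrev Fm.iff (φ ψ : Fm) : Fm := .and (.imp φ ψ) (.imp ψ φ)

/-- the bounded quantifier `∀ x ≤ t` -/
abbrev Fm.ball (t : Tm) (φ : Fm) : Fm := .all (.imp (.le (.var 0) (t.sub shift)) φ)

/-- The bounded formulas. -/
inductive Bdd : Fm → Prop
  | eq (s t : Tm) : Bdd (.eq s t)
  | le (s t : Tm) : Bdd (.le s t)
  | orc (t : Tm) : Bdd (.orc t)
  | bot : Bdd .bot
  | imp (φ ψ : Fm) : Bdd φ → Bdd ψ → Bdd (.imp φ ψ)
  | ball (t : Tm) (φ : Fm) : Bdd φ → Bdd (.ball t φ)

/-- `SB true` and `SB false` are Buss's classes `Σ^b_1` and `Π^b_1` (with `∃` and the other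
connectives written by means of `∀`, implication and falsity): sharply bounded quantifiers
`∀ x ≤ |t|` are free, `∀ x ≤ t` is allowed in `Π^b_1`. -/
inductive SB : Bool → Fm → Prop
  | eq (b : Bool) (s t : Tm) : SB b (.eq s t)
  | le (b : Bool) (s t : Tm) : SB b (.le s t)
  | orc (b : Bool) (t : Tm) : SB b (.orc t)
  | bot (b : Bool) : SB b .bot
  | imp (b : Bool) (φ ψ : Fm) : SB (!b) φ → SB b ψ → SB b (.imp φ ψ)
  | sball (b : Bool) (t : Tm) (φ : Fm) : SB b φ → SB b (.ball (.len t) φ)
  | ball (t : Tm) (φ : Fm) : SB false φ → SB false (.ball t φ)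

/-! ### The theory `S^1_2` -/

/-- The binary numeral of `n`. -/
def num (n : ℕ) : Tm :=
  Nat.binaryRec (motive := fun _ => Tm) .zero
    (fun b _ t => bif b then .succ (.mul (.succ (.succ .zero)) t) else
      .mul (.succ (.succ .zero)) t) n

section Basic

/-- variables -/
abbrev va : Tm := .var 0
/-- variables -/
abbrev vb : Tm := .var 1
/-- variables -/
abbrev vc : Tm := .var 2
/-- variables -/
abbrev vd : Tm := .var 3
/-- `2 · t` -/
abbrev dbl (t : Tm) : Tm := .mul (.succ (.succ .zero)) t

/-- Buss's 32 axioms BASIC. -/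
def basic : List Fm :=
  [.imp (.le vb va) (.le vb (.succ va)),
   .neg (.eq va (.succ va)),
   .le .zero va,
   .iff (.and (.le va vb) (.neg (.eq va vb))) (.le (.succ va) vb),
   .imp (.neg (.eq va .zero)) (.neg (.eq (dbl va) .zero)),
   .or (.le va vb) (.le vb va),
   .imp (.and (.le va vb) (.le vb va)) (.eq va vb),
   .imp (.and (.le va vb) (.le vb vc)) (.le va vc),
   .eq (.len .zero) .zero,
   .imp (.neg (.eq va .zero)) (.and (.eq (.len (dbl va)) (.succ (.len va)))
     (.eq (.len (.succ (dbl va))) (.succ (.len va)))),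
   .eq (.len (.succ .zero)) (.succ .zero),
   .imp (.le va vb) (.le (.len va) (.len vb)),
   .eq (.len (.smash va vb)) (.succ (.mul (.len va) (.len vb))),
   .eq (.smash .zero va) (.succ .zero),
   .imp (.neg (.eq va .zero)) (.and
     (.eq (.smash (.succ .zero) (dbl va)) (dbl (.smash (.succ .zero) va)))
     (.eq (.smash (.succ .zero) (.succ (dbl va))) (dbl (.smash (.succ .zero) va)))),
   .eq (.smash va vb) (.smash vb va),
   .imp (.eq (.len va) (.len vb)) (.eq (.smash va vc) (.smash vb vc)),
   .imp (.eq (.len va) (.add (.len vb) (.len vc)))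
     (.eq (.smash va vd) (.mul (.smash vb vd) (.smash vc vd))),
   .le va (.add va vb),
   .imp (.and (.le va vb) (.neg (.eq va vb))) (.and (.le (.succ (dbl va)) (dbl vb))
     (.neg (.eq (.succ (dbl va)) (dbl vb)))),
   .eq (.add va vb) (.add vb va),
   .eq (.add va .zero) va,
   .eq (.add va (.succ vb)) (.succ (.add va vb)),
   .eq (.add (.add va vb) vc) (.add va (.add vb vc)),
   .iff (.le (.add va vb) (.add va vc)) (.le vb vc),
   .eq (.mul va .zero) .zero,
   .eq (.mul va (.succ vb)) (.add (.mul va vb) va),
   .eq (.mul va vb) (.mul vb va),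
   .eq (.mul va (.add vb vc)) (.add (.mul va vb) (.mul va vc)),
   .imp (.le (.succ .zero) va) (.iff (.le (.mul va vb) (.mul va vc)) (.le vb vc)),
   .imp (.neg (.eq va .zero)) (.eq (.len va) (.succ (.len (.half va)))),
   .iff (.eq va (.half vb)) (.or (.eq (dbl va) vb) (.eq (.succ (dbl va)) vb))]

/-- The instance for `φ(x)` (`x` the variable `0`) of the scheme PIND:
`φ(0) → ∀ x (φ(⌊x/2⌋) → φ(x)) → ∀ x φ(x)`. -/
def pind (φ : Fm) : Fm :=
  .imp (φ.sub (inst .zero)) (.imp
    (.all (.imp (φ.sub fun i => match i with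
      | 0 => .half (.var 0)
      | i + 1 => .var (i + 1)) φ)) (.all φ))

end Basic

/-- The axioms of `S^1_2` relative to the oracle `O`: BASIC, PIND for `Σ^b_1` formulas (the symbol
`α` may occur in them), the true sentences `α(n)` and `¬ α(n)` for binary numerals `n`, and all
universal closures of these. -/
inductive Base (O : Oracle) : Fm → Prop
  | basic (φ : Fm) : φ ∈ basic → Base O φ
  | pind (φ : Fm) : SB true φ → Base O (pind φ)
  | pos (n : ℕ) : O (str n) = true → Base O (.orc (num n))
  | neg (n : ℕ) : O (str n) = false → Base O (.neg (.orc (num n)))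
  | gen (φ : Fm) : Base O φ → Base O (.all φ)

/-! ### Proofs -/

/-- The logical axioms of the Hilbert calculus. The only rule is modus ponens. -/
inductive LAx : Fm → Prop
  | k (φ ψ : Fm) : LAx (.imp φ (.imp ψ φ))
  | s (φ ψ χ : Fm) : LAx (.imp (.imp φ (.imp ψ χ)) (.imp (.imp φ ψ) (.imp φ χ)))
  | dn (φ : Fm) : LAx (.imp (.neg (.neg φ)) φ)
  | inst (φ : Fm) (t : Tm) : LAx (.imp (.all φ) (φ.sub (inst t)))
  | dist (φ ψ : Fm) : LAx (.imp (.all (.imp φ ψ)) (.imp (.all φ) (.all ψ)))
  | vac (φ : Fm) : LAx (.imp φ (.all (φ.sub shift)))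
  | refl (t : Tm) : LAx (.eq t t)
  | leib (φ : Fm) (s t : Tm) :
      LAx (.imp (.eq s t) (.imp (φ.sub (RF.inst s)) (φ.sub (RF.inst t))))
  | gen (φ : Fm) : LAx φ → LAx (.all φ)

/-- Proofs (the last line is the head of the list) from `S^1_2` relative to `O` and the axioms
`A`. -/
inductive Prf (O : Oracle) (A : Set Fm) : List Fm → Prop
  | nil : Prf O A []
  | ax (φ : Fm) (π : List Fm) : Prf O A π → LAx φ ∨ Base O φ ∨ φ ∈ A → Prf O A (φ :: π)
  | mp (φ ψ : Fm) (π : List Fm) : Prf O A π → .imp ψ φ ∈ π → ψ ∈ π → Prf O A (φ :: π)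

/-- `π` is a proof of `φ`. -/
def PfOf (O : Oracle) (A : Set Fm) (φ : Fm) (π : List Fm) : Prop :=
  Prf O A π ∧ π.head? = some φ

/-- The structure is a model of `S^1_2` relative to `O` and the axioms `A`. -/
def Models {M : Type} (s : Str M) (O : Oracle) (A : Set Fm) : Prop :=
  ∀ φ : Fm, Base O φ ∨ φ ∈ A → ∀ v : ℕ → M, φ.sat s v

/-- The extension of `S^1_2` relative to `O` by the axioms `A` is consistent: it has a model. -/
def Cons (O : Oracle) (A : Set Fm) : Prop := ∃ (M : Type) (s : Str M), Models s O A

/-- The class `𝒯` relative to the oracle `O`: the consistent theories which extend `S^1_2` by a set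
`A` of sentences decidable in polynomial time relative to `O`. -/
def InT (O : Oracle) (A : Set Fm) : Prop :=
  (∀ φ ∈ A, φ.Below 0) ∧ IsP O {x | ∃ φ ∈ A, φ.enc = x} ∧ Cons O A

/-! ### Reflection -/

/-- the substitution of numerals for the first variables -/
def nums : List ℕ → ℕ → Tm
  | [], i => .var i
  | n :: _, 0 => num n
  | _ :: l, i + 1 => nums l i

/-- the assignment with the given first values -/
def env (l : List ℕ) : ℕ → ℕ := fun i => l.getD i 0

/-- The sentence `∀ u z x e (|e|, |u|, |x|, |z| ≤ n → F → μ)`, where `n` is a binary numeral and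
`e, x, z, u` are the variables `0, 1, 2, 3` of `F` and `μ`. -/
def rfn (F μ : Fm) (n : ℕ) : Fm :=
  .all (.all (.all (.all (.imp (.le (.len (.var 3)) (num n)) (.imp (.le (.len (.var 2)) (num n))
    (.imp (.le (.len (.var 1)) (num n)) (.imp (.le (.len (.var 0)) (num n)) (.imp F μ))))))))

/-- The bounded formula `F` with the free variables `e, x, z, u` is true (in the standard structure)
only if `μ(e, x, z)` (with binary numerals) is provable in the theory with the axioms `A`. Every
formalisation of the predicate that `u` codes a proof of `μ(e, x, z)` has this property. -/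
def Sound (O : Oracle) (A : Set Fm) (μ F : Fm) : Prop :=
  Bdd F ∧ F.Below 4 ∧ ∀ e x z u : ℕ, F.sat (nat O) (env [e, x, z, u]) →
    ∃ π : List Fm, PfOf O A (μ.sub (nums [e, x, z])) π

end Pool.Agent.W2helper61.RF
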