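import Pool.Agent.W2helper61.LH.Fin
import Pool.Agent.W2helper17.GU.PH

/-! A tally version of the hard languages: definition and upper bound. -/

set_option autoImplicit false

namespace Pool.Agent.W2helper61.RF

open Pool.Agent.NPC Pool.Agent.H622R2 Pool.Agent.H620R2.Gauge Pool.Agent.H591R3.PHG
  Pool.Agent.TH678.GC
open Pool.Agent.W2helper58.GU (acc S_SIG)

/-! ### numbers in unary notation -/

theorem filter_lt_length (s : ℕ) : ∀ N, ((List.range N).filter (fun i => decide (i < s))).length =
    min s N := by
  intro N
  induction N with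
  | zero => simp
  | succ N ih =>
    rw [List.range_succ, List.filter_append, List.length_append, ih]
    by_cases h : N < s
    · simp [h]
      omega
    · simp [h]
      omega

theorem sqrt_eq (N : ℕ) :
    ((List.range N).filter (fun i => decide ((i + 1) * (i + 1) ≤ N))).length = Nat.sqrt N := by
  have h : (fun i => decide ((i + 1) * (i + 1) ≤ N)) = fun i => decide (i < Nat.sqrt N) := by
    funext i
    rw [Bool.eq_iff_iff, decide_eq_true_eq, decide_eq_true_eq, ← Nat.le_sqrt]
    exact Iff.rfl
  rw [h, filter_lt_length, min_eq_left (Nat.sqrt_le_self N)]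

section

variable {α : Type} [TEnc α]

theorem upoly_sqrt {n : α → ℕ} (hn : UPoly n) : UPoly (fun a => Nat.sqrt (n a)) := by
  have h1 : Poly (fun p : α × ℕ => decide ((p.2 + 1) * (p.2 + 1) ≤ n p.1)) :=
    Poly.decide_le (Poly.mul (Poly.succ (Poly.snd Poly.id)) (Poly.succ (Poly.snd Poly.id)))
      (hn.toPoly.comp (Poly.fst Poly.id))
  have h2 := UPoly.length (Poly.filter (p := fun a i => decide ((i + 1) * (i + 1) ≤ n a))
    hn.range h1)
  exact h2.congr fun a => by
    simp only [sqrt_eq]

theorem upoly_unpair1 {n : α → ℕ} (hn : UPoly n) : UPoly (fun a => (Nat.unpair (n a)).1) := by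
  have hs := (upoly_sqrt hn).toPoly
  have hN := hn.toPoly
  refine UPoly.of_le ?_ hn fun a => Nat.unpair_left_le _
  refine (Poly.ite (p := fun a => n a - Nat.sqrt (n a) * Nat.sqrt (n a) < Nat.sqrt (n a))
    (Poly.decide_lt (Poly.sub hN (Poly.mul hs hs)) hs) (Poly.sub hN (Poly.mul hs hs)) hs).congr
    fun a => ?_
  unfold Nat.unpair
  dsimp only
  split_ifs <;> rfl

theorem upoly_unpair2 {n : α → ℕ} (hn : UPoly n) : UPoly (fun a => (Nat.unpair (n a)).2) := by
  have hs := (upoly_sqrt hn).toPoly
  have hN := hn.toPoly
  refine UPoly.of_le ?_ hn fun a => Nat.unpair_right_le _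
  refine (Poly.ite (p := fun a => n a - Nat.sqrt (n a) * Nat.sqrt (n a) < Nat.sqrt (n a))
    (Poly.decide_lt (Poly.sub hN (Poly.mul hs hs)) hs) hs
    (Poly.sub (Poly.sub hN (Poly.mul hs hs)) hs)).congr fun a => ?_
  unfold Nat.unpair
  dsimp only
  split_ifs <;> rfl

theorem poly_bitsOf (w : ℕ) {n : α → ℕ} (hn : Poly n) : Poly (fun a => bitsOf w (n a)) := by
  induction w generalizing n with
  | zero => exact NPC.Poly.const []
  | succ w ih =>
    have h1 : Poly (fun a => n a % 2) := Poly.mod hn (NPC.Poly.const 2)
    have h2 : Poly (fun a => n a / 2) := Poly.div hn (NPC.Poly.const 2)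
    refine (Poly.cons (Poly.decide_eq h1 (NPC.Poly.const 1)) (ih h2)).congr fun a => ?_
    show _ = (n a % 2 == 1) :: bitsOf w (n a / 2)
    congr 1

end

/-! ### the tally language -/

/-- the string coded by a number -/
def tfE : ℕ → ℕ → List Bool
  | 0, N => pairBits [true] (List.replicate (Nat.unpair N).1 true ++ bitsOf 11 (Nat.unpair N).2)
  | k + 1, N => pairBits (List.replicate (Nat.unpair N).1 true) (tfE k (Nat.unpair N).2)

theorem poly_tfE (k : ℕ) {α : Type} [TEnc α] {n : α → ℕ} (hn : UPoly n) :
    Poly (fun a => tfE k (n a)) := by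
  induction k generalizing n with
  | zero =>
    exact poly_pairBits (NPC.Poly.const [true]) (Poly.append (LH.poly_ones (upoly_unpair1 hn))
      (poly_bitsOf 11 (upoly_unpair2 hn).toPoly))
  | succ k ih =>
    exact poly_pairBits (LH.poly_ones (upoly_unpair1 hn)) (ih (upoly_unpair2 hn))

/-- the code of the parameters -/
def cd (as : List ℕ) (u j : ℕ) : ℕ := as.foldl (fun acc a => Nat.pair a acc) (Nat.pair u j)

theorem cd_append (as : List ℕ) (a u j : ℕ) : cd (as ++ [a]) u j = Nat.pair a (cd as u j) := by
  unfold cd
  rw [List.foldl_append]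
  rfl

theorem tfE_cd (as : List ℕ) (u j : ℕ) : tfE as.length (cd as u j) =
    enc as 1 (List.replicate u true ++ bitsOf 11 j) := by
  induction as using List.reverseRecOn with
  | nil =>
    show tfE 0 (Nat.pair u j) = _
    unfold tfE
    rw [Nat.unpair_pair]
    rfl
  | append_singleton as a ih =>
    rw [List.length_append, List.length_singleton, cd_append]
    show pairBits _ _ = _
    rw [Nat.unpair_pair]
    dsimp only
    rw [ih, LangTrAux.enc_append]

/-- the bound for the codes -/
noncomputable def Gp : ℕ → Polynomial ℕ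
  | 0 => (Polynomial.X + Polynomial.C 2049) ^ 2
  | k + 1 => (Polynomial.C 64 * Polynomial.X + Gp k + Polynomial.C 1) ^ 2

theorem cd_le {n u j : ℕ} (hu : u ≤ n) (hj : j < 2 ^ 11) (as : List ℕ)
    (has : ∀ a ∈ as, a ≤ 64 * n) : cd as u j ≤ (Gp as.length).eval n := by
  induction as using List.reverseRecOn with
  | nil =>
    show Nat.pair u j ≤ _
    have h1 := Nat.pair_lt_max_add_one_sq u j
    show _ ≤ (Gp 0).eval n
    unfold Gp
    rw [Polynomial.eval_pow, Polynomial.eval_add, Polynomial.eval_X, Polynomial.eval_C]
    refine h1.le.trans (Nat.pow_le_pow_left ?_ 2)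
    norm_num at hj
    omega
  | append_singleton as a ih =>
    have h2 := ih fun b hb => has b (List.mem_append_left _ hb)
    have h3 := has a (List.mem_append_right _ (List.mem_singleton_self a))
    rw [cd_append, List.length_append, List.length_singleton]
    have h1 := Nat.pair_lt_max_add_one_sq a (cd as u j)
    show _ ≤ (Gp (as.length + 1)).eval n
    unfold Gp
    rw [Polynomial.eval_pow, Polynomial.eval_add, Polynomial.eval_add, Polynomial.eval_mul,
      Polynomial.eval_X, Polynomial.eval_C, Polynomial.eval_C]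
    refine h1.le.trans (Nat.pow_le_pow_left ?_ 2)
    omega

/-- the hard tally language -/
def tlang (k : ℕ) (A : Oracle) : Set (List Bool) :=
  {x | x = List.replicate x.length true ∧
    tfE (k + 1) x.length ∈ Pool.Agent.H591R3.PHG.lang k A}

theorem tlang_ag (k : ℕ) (A : Oracle) (x : List Bool) :
    ∃ ℓ, ∀ A', LH.Ag ℓ A A' → (x ∈ tlang k A ↔ x ∈ tlang k A') := by
  obtain ⟨ℓ, hℓ⟩ := LH.lang_ag k A (tfE (k + 1) x.length)
  exact ⟨ℓ, fun A' hA' => and_congr_right fun _ => hℓ A' hA'⟩

/-! ### the upper bound -/

/-- the string which is not quantified -/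
def bs : ℕ → List Bool → List Bool
  | 0, u => u
  | i + 1, u => bs i (unpair u).2

/-- the nested string with another base -/
def sb (f : List Bool → List Bool) : ℕ → List Bool → List Bool
  | 0, u => f u
  | i + 1, u => pairBits (unpair u).1 (sb f i (unpair u).2)

theorem poly_bs (i : ℕ) : Poly (bs i) := by
  induction i with
  | zero => exact Poly.id
  | succ i ih => exact ih.comp (Poly.snd poly_unpair)

theorem poly_sb {f : List Bool → List Bool} (hf : Poly f) (i : ℕ) : Poly (sb f i) := by
  induction i with
  | zero => exact hf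
  | succ i ih =>
    exact poly_pairBits (Poly.fst poly_unpair) (ih.comp (Poly.snd poly_unpair))

theorem quant_sb (f V : List Bool → List Bool) (K m : ℕ) : ∀ (j i : ℕ) (b : Bool) (u : List Bool),
    i + j = K → (Quant m (fun y => if (bs K y).all id then V (sb f K y) else []) j b u ↔
      ((bs i u).all id ∧ Quant m V j b (sb f i u))) := by
  intro j
  induction j with
  | zero =>
    intro i b u hi
    have hi' : i = K := by omega
    subst hi'
    cases b <;> by_cases h : (bs i u).all id = true <;> simp [Quant, h]
  | succ j ih =>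
    intro i b u hi
    have key : ∀ w : List Bool, (Quant m (fun y => if (bs K y).all id then V (sb f K y) else [])
        j (!b) (pairBits w u) ↔ ((bs i u).all id ∧ Quant m V j (!b) (pairBits w (sb f i u)))) := by
      intro w
      have h1 := ih (i + 1) (!b) (pairBits w u) (by omega)
      simp only [bs, sb, unpair_pairBits] at h1
      exact h1
    cases b with
    | true =>
      have key' : ∀ w : List Bool, (Quant m (fun y => if (bs K y).all id then V (sb f K y) else [])
        j false (pairBits w u) ↔ ((bs i u).all id ∧ Quant m V j false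
          (pairBits w (sb f i u)))) := key
      simp only [Quant, key']
      constructor
      · rintro ⟨w, h1, h2, h3⟩
        exact ⟨h2, w, h1, h3⟩
      · rintro ⟨h2, w, h1, h3⟩
        exact ⟨w, h1, h2, h3⟩
    | false =>
      have key' : ∀ w : List Bool, (Quant m (fun y => if (bs K y).all id then V (sb f K y) else [])
        j true (pairBits w u) ↔ ((bs i u).all id ∧ Quant m V j true
          (pairBits w (sb f i u)))) := key
      simp only [Quant, key']
      constructor
      · intro h
        exact ⟨(h [] (Nat.zero_le _)).1, fun w hw => (h w hw).2⟩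
      · rintro ⟨h2, h3⟩ w hw
        exact ⟨h2, h3 w hw⟩

theorem all_iff (x : List Bool) : x.all id = true ↔ x = List.replicate x.length true := by
  rw [List.eq_replicate_iff]
  simp [List.all_eq_true]

theorem tlang_sig (A E : Oracle) (k : ℕ) : IsSig (join A E) (k + 1) (tlang k A) := by
  have hf : Poly (fun x : List Bool => tfE (k + 1) x.length) :=
    poly_tfE (k + 1) (UPoly.length Poly.id)
  obtain ⟨q, hq⟩ := hf.sz_le
  have h1 := (Pool.Agent.W2helper17.GU.isFP_Ver' (k + 1) (!(bot true (k + 1))) A E).precomp
    (poly_sb hf (k + 1))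
  have h2 := LH.map2 (H := fun a b => if (bs (k + 1) b).all id then a else [])
    h1 (IsFP.of_poly (A := join A E) Poly.id) (Poly.ite (Poly.decide_eq (Poly.all
      (p := fun _ b => b) ((poly_bs (k + 1)).comp (Poly.snd Poly.id)) (Poly.snd Poly.id))
        (NPC.Poly.const true)) (Poly.fst Poly.id) (NPC.Poly.const []))
  refine ⟨_, q.comp (Polynomial.C 4 * Polynomial.X + Polynomial.C 1), h2, fun x => ?_⟩
  rw [Polynomial.eval_comp, Polynomial.eval_add, Polynomial.eval_mul, Polynomial.eval_C,
    Polynomial.eval_X, Polynomial.eval_C]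
  have h3 : (tfE (k + 1) x.length).length ≤ q.eval (4 * x.length + 1) := by
    have h4 := hq x
    have h5 := sz_listBool_le x
    have h6 := sz_listBool_ge (tfE (k + 1) x.length)
    have h7 := eval_mono q h5
    omega
  have h4 := quant_sb (fun x => tfE (k + 1) x.length)
    (LangSig.Ver (k + 1) (!(bot true (k + 1))) A) (k + 1) (q.eval (4 * x.length + 1)) (k + 1) 0
    true x (by omega)
  refine Iff.trans ?_ h4.symm
  refine and_congr (all_iff x).symm ?_
  show tfE (k + 1) x.length ∈ Pool.Agent.H591R3.PHG.lang k A ↔ Quant _ _ _ _ (tfE (k + 1) x.length)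
  rw [LangSig.quant_iff A (k + 1) _ _ (k + 1) 0 true _ _ _ (by omega) rfl h3
    (by rw [Bool.not_not])]
  rfl

end Pool.Agent.W2helper61.RF
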