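import Pool.Agent.W2helper61.RF.Tal
import Pool.Agent.Y626.WG.Core

/-! The lower bound for the tally languages. -/

set_option autoImplicit false

namespace Pool.Agent.W2helper61.RF

open Pool.Agent.NPC Pool.Agent.H622R2 Pool.Agent.H620R2.Gauge Pool.Agent.H591R3.PHG
  Pool.Agent.TH678.GC Pool.Agent.H676 Pool.Agent.Y626.WG
open Pool.Agent.W2helper58.GU (acc S_SIG)
open Pool.Agent.W2helper17.GU (Az Az_addr sing_Az dtr_run' quant_qf eventually_small)

/-! ### clipping -/

section clip

variable {I : Type} (β : List Bool → ℕ)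

/-- the type of the quantifier number `i` -/
def tb (b : Bool) : ℕ → Bool
  | 0 => b
  | i + 1 => !(tb b i)

/-- the result of the first quantified string which is too long -/
def vio (b : Bool) : ℕ → List Bool → Option Bool
  | 0, _ => none
  | i + 1, u => match vio b i (unpair u).2 with
    | some c => some c
    | none => if (unpair u).1.length ≤ β (bs i (unpair u).2) then none else some (!(tb b i))

/-- the clipped function -/
def clipF (b : Bool) (K : ℕ) (F : List Bool → (I → Bool) → Bool) :
    List Bool → (I → Bool) → Bool := fun y a =>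
  match vio β b K y with
  | some c => c
  | none => F y a

theorem QF_ex {m k : ℕ} {F : List Bool → (I → Bool) → Bool} {y : List Bool} {a : I → Bool} :
    QF m F (k + 1) true y a = true ↔ ∃ w : List Bool, w.length ≤ m ∧
      QF m F k false (pairBits w y) a = true := by
  simp only [QF, decide_eq_true_eq]

theorem QF_all {m k : ℕ} {F : List Bool → (I → Bool) → Bool} {y : List Bool} {a : I → Bool} :
    QF m F (k + 1) false y a = true ↔ ∀ w : List Bool, w.length ≤ m →
      QF m F k true (pairBits w y) a = true := by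
  simp only [QF, decide_eq_true_eq]

theorem clip_key (b : Bool) (K m : ℕ) (F : List Bool → (I → Bool) → Bool) (a : I → Bool) :
    ∀ (j i : ℕ) (u : List Bool), i + j = K →
      (∀ c, vio β b i u = some c → QF m (clipF β b K F) j (tb b i) u a = c) ∧
      (vio β b i u = none → β (bs i u) ≤ m →
        QF m (clipF β b K F) j (tb b i) u a = QF (β (bs i u)) F j (tb b i) u a) := by
  intro j
  induction j with
  | zero =>
    intro i u hi
    have hi' : i = K := by omega
    subst hi'
    refine ⟨fun c hc => ?_, fun hc _ => ?_⟩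
    · show clipF β b i F u a = c
      unfold clipF
      rw [hc]
    · show clipF β b i F u a = F u a
      unfold clipF
      rw [hc]
  | succ j ih =>
    intro i u hi
    have hw : ∀ w : List Bool, vio β b (i + 1) (pairBits w u) = (match vio β b i u with
        | some c => some c
        | none => if w.length ≤ β (bs i u) then none else some (!(tb b i))) := by
      intro w
      show (match vio β b i (unpair (pairBits w u)).2 with
        | some c => some c
        | none => if (unpair (pairBits w u)).1.length ≤ β (bs i (unpair (pairBits w u)).2)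
          then none else some (!(tb b i))) = _
      rw [unpair_pairBits]
    have hb : ∀ w : List Bool, bs (i + 1) (pairBits w u) = bs i u := by
      intro w
      show bs i (unpair (pairBits w u)).2 = _
      rw [unpair_pairBits]
    have hT : tb b (i + 1) = !(tb b i) := rfl
    constructor
    · intro c hc
      have h1 : ∀ w : List Bool, QF m (clipF β b K F) j (!(tb b i)) (pairBits w u) a = c := by
        intro w
        have h2 := (ih (i + 1) (pairBits w u) (by omega)).1 c (by rw [hw, hc])
        rwa [hT] at h2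
      cases hb' : tb b i with
      | true =>
        rw [hb'] at h1
        have h1' : ∀ w : List Bool, QF m (clipF β b K F) j false (pairBits w u) a = c := h1
        rw [Bool.eq_iff_iff, QF_ex]
        constructor
        · rintro ⟨w, _, h2⟩
          rw [← h1' w, h2]
        · intro h2
          exact ⟨[], Nat.zero_le _, by rw [h1', h2]⟩
      | false =>
        rw [hb'] at h1
        have h1' : ∀ w : List Bool, QF m (clipF β b K F) j true (pairBits w u) a = c := h1
        rw [Bool.eq_iff_iff, QF_all]
        constructor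
        · intro h2
          rw [← h1' [], h2 [] (Nat.zero_le _)]
        · intro h2 w _
          rw [h1', h2]
    · intro hc hm
      have h1 : ∀ w : List Bool, w.length ≤ β (bs i u) →
          QF m (clipF β b K F) j (!(tb b i)) (pairBits w u) a =
            QF (β (bs i u)) F j (!(tb b i)) (pairBits w u) a := by
        intro w hwl
        have h2 := (ih (i + 1) (pairBits w u) (by omega)).2 (by rw [hw, hc]; simp [hwl])
          (by rw [hb]; exact hm)
        rwa [hT, hb] at h2
      have h3 : ∀ w : List Bool, ¬ w.length ≤ β (bs i u) →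
          QF m (clipF β b K F) j (!(tb b i)) (pairBits w u) a = !(tb b i) := by
        intro w hwl
        have h2 := (ih (i + 1) (pairBits w u) (by omega)).1 (!(tb b i)) (by rw [hw, hc]; simp [hwl])
        rwa [hT] at h2
      cases hb' : tb b i with
      | true =>
        rw [hb'] at h1 h3
        have h1' : ∀ w : List Bool, w.length ≤ β (bs i u) →
          QF m (clipF β b K F) j false (pairBits w u) a =
            QF (β (bs i u)) F j false (pairBits w u) a := h1
        have h3' : ∀ w : List Bool, ¬ w.length ≤ β (bs i u) →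
          QF m (clipF β b K F) j false (pairBits w u) a = false := h3
        rw [Bool.eq_iff_iff, QF_ex, QF_ex]
        constructor
        · rintro ⟨w, k1, k2⟩
          by_cases hwl : w.length ≤ β (bs i u)
          · exact ⟨w, hwl, by rw [← h1' w hwl]; exact k2⟩
          · rw [h3' w hwl] at k2
            cases k2
        · rintro ⟨w, k1, k2⟩
          exact ⟨w, k1.trans hm, by rw [h1' w k1]; exact k2⟩
      | false =>
        rw [hb'] at h1 h3
        have h1' : ∀ w : List Bool, w.length ≤ β (bs i u) →
          QF m (clipF β b K F) j true (pairBits w u) a =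
            QF (β (bs i u)) F j true (pairBits w u) a := h1
        have h3' : ∀ w : List Bool, ¬ w.length ≤ β (bs i u) →
          QF m (clipF β b K F) j true (pairBits w u) a = true := h3
        rw [Bool.eq_iff_iff, QF_all, QF_all]
        constructor
        · intro k w hwl
          rw [← h1' w hwl]
          exact k w (hwl.trans hm)
        · intro k w _
          by_cases hwl : w.length ≤ β (bs i u)
          · rw [h1' w hwl]
            exact k w hwl
          · exact h3' w hwl

theorem clip_eq (b : Bool) (K m : ℕ) (F : List Bool → (I → Bool) → Bool) (a : I → Bool)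
    (x : List Bool) (hx : β x ≤ m) :
    QF m (clipF β b K F) K b x a = QF (β x) F K b x a :=
  (clip_key β b K m F a K 0 x (by omega)).2 rfl hx

theorem clip_dtr [Fintype I] [DecidableEq I] (b : Bool) (K : ℕ)
    {F : List Bool → (I → Bool) → Bool} {r : ℕ} {y : List Bool} (h : DTr r (F y)) :
    DTr r (clipF β b K F y) := by
  rcases hv : vio β b K y with _ | c
  · have : clipF β b K F y = F y := by
      funext a
      unfold clipF
      rw [hv]
    rw [this]
    exact h
  · refine DTr.const ⟨c, fun a => ?_⟩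
    unfold clipF
    rw [hv]

theorem QF_not (m : ℕ) (F : List Bool → (I → Bool) → Bool) (a : I → Bool) :
    ∀ (k : ℕ) (b : Bool) (y : List Bool),
      QF m (fun y z => !(F y z)) k (!b) y a = !(QF m F k b y a) := by
  intro k
  induction k with
  | zero => intro b y; rfl
  | succ k ih =>
    intro b y
    cases b with
    | true =>
      have ih' : ∀ y, QF m (fun y z => !(F y z)) k true y a = !(QF m F k false y a) :=
        fun y => ih false y
      rw [Bool.not_true, Bool.eq_iff_iff, QF_all, Bool.not_eq_true', ← Bool.not_eq_true, QF_ex]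
      push Not
      refine forall_congr' fun w => imp_congr_right fun _ => ?_
      rw [ih', Bool.not_eq_true', ne_eq, Bool.not_eq_true]
    | false =>
      have ih' : ∀ y, QF m (fun y z => !(F y z)) k false y a = !(QF m F k true y a) :=
        fun y => ih true y
      rw [Bool.not_false, Bool.eq_iff_iff, QF_ex, Bool.not_eq_true', ← Bool.not_eq_true, QF_all]
      push Not
      refine exists_congr fun w => and_congr_right fun _ => ?_
      rw [ih', Bool.not_eq_true', ne_eq, Bool.not_eq_true]

end clip

/-! ### numbers -/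

theorem numbers' {n D : ℕ} (hD : 4 * D ≤ 2 ^ (4 * n)) :
    (1 - 1 / 256 : ℝ) ^ (2 ^ 9) * (1 + 2 * (1 / 2 ^ (4 * n))) ^ D + (9 / 10) ^ (2 ^ 11) ≤ 7 / 10 := by
  have hA : (1 - 1 / 256 : ℝ) ^ (2 ^ 9) ≤ 1 / 3 := by
    have h1 := one_sub_pow_le_exp (x := 1 / 256) (by norm_num) (2 ^ 9)
    have h2 : Real.exp (-(((2 ^ 9 : ℕ) : ℝ) * (1 / 256))) ≤ 1 / 3 := by
      have h3 : (((2 ^ 9 : ℕ) : ℝ) * (1 / 256)) = 2 := by norm_num
      rw [h3, Real.exp_neg]
      have h4 : (2 : ℝ) + 1 ≤ Real.exp 2 := Real.add_one_le_exp 2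
      rw [inv_eq_one_div]
      exact one_div_le_one_div_of_le (by norm_num) (by linarith)
    exact h1.trans h2
  have hB : (1 + 2 * (1 / 2 ^ (4 * n)) : ℝ) ^ D ≤ 2 := by
    have h1 : (1 + 2 * (1 / 2 ^ (4 * n)) : ℝ) ≤ Real.exp (2 / 2 ^ (4 * n)) := by
      have := Real.add_one_le_exp (2 / 2 ^ (4 * n) : ℝ)
      rw [mul_one_div]
      linarith
    calc (1 + 2 * (1 / 2 ^ (4 * n)) : ℝ) ^ D
        ≤ (Real.exp (2 / 2 ^ (4 * n))) ^ D :=
          pow_le_pow_left₀ (by positivity) h1 _
      _ = Real.exp ((D : ℝ) * (2 / 2 ^ (4 * n))) := by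
          rw [← Real.exp_nat_mul]
      _ ≤ Real.exp (1 / 2) := by
          apply Real.exp_le_exp.mpr
          rw [mul_div_assoc', div_le_div_iff₀ (by positivity) (by positivity)]
          have h : ((4 * D : ℕ) : ℝ) ≤ ((2 ^ (4 * n) : ℕ) : ℝ) := by exact_mod_cast hD
          push_cast at h
          linarith
      _ ≤ 2 := by
          have h := Real.exp_one_lt_d9
          have h2 : Real.exp (1 / 2) * Real.exp (1 / 2) = Real.exp 1 := by
            rw [← Real.exp_add]; norm_num
          nlinarith [Real.exp_pos (1 / 2)]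
  have hC : (9 / 10 : ℝ) ^ (2 ^ 11) ≤ 1 / 50 := by
    calc (9 / 10 : ℝ) ^ (2 ^ 11) ≤ (9 / 10) ^ 40 :=
          pow_le_pow_of_le_one (by norm_num) (by norm_num) (by norm_num)
      _ ≤ 1 / 50 := by norm_num
  have hE : (0 : ℝ) ≤ 1 / 3 := by norm_num
  have h1 := mul_le_mul hA hB (by positivity) hE
  have h2 := add_le_add h1 hC
  refine h2.trans ?_
  norm_num

theorem core' (t : ℕ) {n u : ℕ} (hn : 5 ≤ n) (hu : 8 * u ≤ n) :
    ∃ as : List ℕ, as.length = t + 1 ∧ (∀ a ∈ as, a ≤ 64 * n) ∧
      ∃ s : Idx (Fin (2 ^ 11)) (pw as) → Option Bool,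
        ∀ (m ℓ : ℕ) (F : List Bool → (Idx (Fin (2 ^ 11)) (pw as) → Bool) → Bool) (b : Bool),
          (∀ y : List Bool, y.length ≤ ℓ + t * (2 * m + 1) → DTr (2 ^ (2 * u)) (F y)) →
          ∀ y : Fin (2 ^ 11) → List Bool, (∀ j, (y j).length ≤ ℓ) →
            (t : ℝ) * (2 ^ (ℓ + t * (2 * m + 1) + 2) * (1 / 2) ^ (2 ^ (2 * u) + 1)) ≤ 1 / 8 →
            ∃ (z : Idx (Fin (2 ^ 11)) (pw as) → Bool) (j : Fin (2 ^ 11)),
              QF m F t b (y j) z = Tr (pw as) (val s z) j := by
  classical
  have hinv := inv_start hn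
  obtain ⟨as, h1, h2, h3⟩ := exists_sizes hn t _ hinv
  refine ⟨as, h1, h2, ?_⟩
  have hD16 : 16 * 2 ^ (2 * u + 11) ≤ 2 ^ (4 * n) := by
    have e : (16 : ℕ) = 2 ^ 4 := by norm_num
    rw [e, ← pow_add]
    exact Nat.pow_le_pow_right (by norm_num) (by omega)
  have h4 := h3 (Fin (2 ^ 11)) (2 ^ (2 * u + 11)) (2 ^ 9) hD16 (by
      rw [Fintype.card_fin]
      norm_num)
  rw [Fintype.card_fin] at h4
  obtain ⟨s, hs⟩ := exists_le_of_Ex hinv.nonneg hinv.sum h4
  refine ⟨s, fun m ℓ F b hF y hy hlt => ?_⟩
  by_contra hcon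
  push Not at hcon
  have hD : 2 ^ (2 * u) * Fintype.card (Fin (2 ^ 11)) ≤ 2 ^ (2 * u + 11) := by
    rw [Fintype.card_fin, ← pow_add]
  have hlen : (pw as).length = t + 1 := by
    rw [pw, List.length_map]; exact h1
  have h5 := main_ind (X := Fin (2 ^ 11)) (n := n) (u := u) (D := 2 ^ (2 * u + 11))
    (g := 2 ^ 9) hn hu hD t (pw as) hlen s m ℓ F hF y hy b
  have h6 := numbers' (n := n) (D := 2 ^ (2 * u + 11)) (by omega)
  have h7 : Ms (1 / 2 ^ (4 * n)) (pw as) s (fun j => QF m F t b (y j)) = 1 :=
    Ms_eq_one _ _ _ _ hcon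
  rw [h7] at h5
  have h8 := (h5.trans (add_le_add (add_le_add hlt le_rfl) hs)).trans
    ((add_assoc _ _ _).le.trans (add_le_add le_rfl h6))
  norm_num at h8

/-! ### the lower bound -/

theorem real_bound' {t a u : ℕ} (h : a + t + 2 ≤ 2 ^ (2 * u)) :
    (t : ℝ) * (2 ^ a * (1 / 2) ^ (2 ^ (2 * u) + 1)) ≤ 1 / 8 := by
  set b : ℕ := 2 ^ (2 * u) with hb
  have h4 : (t : ℝ) ≤ 2 ^ t := by exact_mod_cast (Nat.lt_two_pow_self (n := t)).le
  have h6 : (2 : ℝ) ^ (a + t + 2) ≤ 2 ^ b := pow_le_pow_right₀ (by norm_num) h
  have h7 : (0 : ℝ) < 2 ^ b := by positivity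
  have h8 : (1 / 2 : ℝ) ^ (b + 1) = 1 / (2 ^ b * 2) := by
    rw [one_div, inv_pow, pow_succ, one_div]
  rw [h8]
  have h9 : (t : ℝ) * 2 ^ a ≤ 2 ^ b / 4 := by
    have h10 : (t : ℝ) * 2 ^ a ≤ 2 ^ t * 2 ^ a := by gcongr
    have h11 : (2 : ℝ) ^ (a + t + 2) = 2 ^ t * 2 ^ a * 4 := by
      rw [pow_add, pow_add]; ring
    linarith
  have h10 : (t : ℝ) * (2 ^ a * (1 / (2 ^ b * 2))) = t * 2 ^ a / (2 ^ b * 2) := by ring
  rw [h10, div_le_iff₀ (by positivity)]
  linarith

theorem low_key (E : Oracle) (k : ℕ) (M : Alg) (p : Polynomial ℕ) (B₀ : Oracle) (L : ℕ)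
    (c : Bool) : ∃ A : Oracle, (∀ v : List Bool, v.length ≤ L → A v = B₀ v) ∧
      ∃ x, (Quant (p.eval x.length) (acc M (join A E)) k true x ↔
        ¬ (x ∈ tlang k A ↔ c = true)) := by
  classical
  set Gc : Polynomial ℕ := (Gp (k + 1)).comp (Polynomial.C 8 * Polynomial.X) with hGc
  set R : Polynomial ℕ := Gc + Polynomial.C k * (Polynomial.C 2 * p.comp Gc + Polynomial.C 1)
    with hR
  obtain ⟨u, hu1, hL, hQ⟩ := eventually_small (M.p.comp R + R + Polynomial.C (2 + k + 2)) L
  set l : ℕ := Gc.eval u with hl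
  set m : ℕ := p.eval l with hm
  have hReval : R.eval u = l + k * (2 * m + 1) := by
    rw [hR]
    simp only [Polynomial.eval_add, Polynomial.eval_mul, Polynomial.eval_C,
      Polynomial.eval_comp]
    rfl
  have hQ' : M.p.eval (R.eval u) + R.eval u + (2 + k + 2) < 2 ^ u := by
    simpa only [Polynomial.eval_add, Polynomial.eval_C, Polynomial.eval_comp] using hQ
  have h2u : 2 ^ u ≤ 2 ^ (2 * u) := Nat.pow_le_pow_right (by norm_num) (by omega)
  obtain ⟨as, has1, has2, s, hs⟩ := core' k (n := 8 * u) (u := u) (by omega) (le_refl _)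
  set zs : Fin (2 ^ 11) → List Bool := fun j => List.replicate u true ++ bitsOf 11 j.val with hzs
  set xs : Fin (2 ^ 11) → List Bool := fun j => enc as 1 (zs j) with hxs
  set l0 : ℕ := 2 * as.sum + as.length + 2 * 1 + 1 + (u + 11) with hl0
  have hlen : ∀ j, (xs j).length = l0 := by
    intro j
    rw [hxs]
    simp only
    rw [enc_len, hzs]
    simp only
    rw [List.length_append, List.length_replicate, length_bitsOf]
  have hinj : Function.Injective xs := by
    intro j j' h
    have h1 : zs j = zs j' := enc_inj as 1 h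
    have h2 : bitsOf 11 j.val = bitsOf 11 j'.val := List.append_cancel_left h1
    exact Fin.ext (bitsOf_inj j.2 j'.2 h2)
  have hl2 : L < l0 := by omega
  set N : Fin (2 ^ 11) → ℕ := fun j => cd as u j.val with hN
  have hNl : ∀ j, N j ≤ l := by
    intro j
    have h1 := cd_le (n := 8 * u) (u := u) (j := j.val) (by omega) j.2 as has2
    rw [hl, hGc, Polynomial.eval_comp, Polynomial.eval_mul, Polynomial.eval_C, Polynomial.eval_X,
      ← has1]
    exact h1
  set y : Fin (2 ^ 11) → List Bool := fun j => List.replicate (N j) true with hy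
  have hylen : ∀ j, (y j).length = N j := fun j => List.length_replicate
  set O : (Idx (Fin (2 ^ 11)) (pw as) → Bool) → Oracle :=
    fun z => join (Az B₀ L xs as (val s z)) E with hO
  set F : List Bool → (Idx (Fin (2 ^ 11)) (pw as) → Bool) → Bool :=
    clipF (fun x => p.eval x.length) true k
      (fun y z => decide (M.out (O z) y = some [true])) with hF
  have hdt : ∀ y : List Bool, y.length ≤ l + k * (2 * m + 1) → DTr (2 ^ (2 * u)) (F y) := by
    intro y hy
    refine clip_dtr _ _ _ ?_
    have h1 := dtr_run' M O (fun q => sing_Az B₀ E L xs as s q) y (M.p.eval y.length) []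
    have h3 : M.p.eval y.length ≤ M.p.eval (R.eval u) := eval_mono _ (by rw [hReval]; exact hy)
    exact h1.mono (by omega)
  have hnum : (k : ℝ) * (2 ^ (l + k * (2 * m + 1) + 2) * (1 / 2) ^ (2 ^ (2 * u) + 1)) ≤ 1 / 8 :=
    real_bound' (by omega)
  have hfin : ∀ (z : Idx (Fin (2 ^ 11)) (pw as) → Bool) (j : Fin (2 ^ 11)),
      (Quant (p.eval (y j).length) (acc M (join (Az B₀ L xs as (val s z)) E)) k true (y j) ↔
        QF m F k true (y j) z = true) := by
    intro z j
    rw [quant_qf M O _ z k true (y j)]
    rw [clip_eq (fun x => p.eval x.length) true k m _ z (y j)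
      (by rw [hylen, hm]; exact eval_mono _ (hNl j))]
  have h2 : ∀ (z : Idx (Fin (2 ^ 11)) (pw as) → Bool) (j : Fin (2 ^ 11)),
      (y j ∈ tlang k (Az B₀ L xs as (val s z)) ↔ Tr (pw as) (val s z) j = false) := by
    intro z j
    have h3 := mem_lang_iff (Az B₀ L xs as (val s z)) k as has1 1 zs j
    have h4 : Tr (1 :: pw as) (leaves (fun j : Fin (2 ^ 11) => enc as 1 (zs j)) as 1
        (Az B₀ L xs as (val s z))) j = Tr (pw as) (val s z) j := by
      show Tr (pw as) (fun g => decide (∀ i : Fin 1, Az B₀ L xs as (val s z)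
        (addr xs as g ++ List.replicate i.val true) = false)) j = _
      congr 1
      funext g
      have h5 : ∀ i : Fin 1, Az B₀ L xs as (val s z)
          (addr xs as g ++ List.replicate i.val true) = !(val s z g) := by
        intro i
        have : i.val = 0 := by omega
        rw [this, List.replicate_zero, List.append_nil]
        exact Az_addr hinj hlen hl2 as _ g
      simp only [h5]
      cases val s z g <;> simp
    rw [h4] at h3
    rw [← h3]
    unfold tlang
    rw [Set.mem_ofPred_eq, hylen]
    constructor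
    · rintro ⟨_, h5⟩
      rw [← has1, hN] at h5
      simp only [tfE_cd] at h5
      exact h5
    · intro h5
      refine ⟨rfl, ?_⟩
      rw [← has1, hN]
      simp only [tfE_cd]
      exact h5
  cases c with
  | true =>
    obtain ⟨z, j, hzj⟩ := hs m l F true hdt y (fun j => by rw [hylen]; exact hNl j) hnum
    refine ⟨Az B₀ L xs as (val s z), fun v hv => if_pos hv, y j, ?_⟩
    rw [hfin, h2, hzj]
    cases Tr (pw as) (val s z) j <;> simp
  | false =>
    obtain ⟨z, j, hzj⟩ := hs m l (fun y z => !(F y z)) false (fun y hy => (hdt y hy).comp _) y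
      (fun j => by rw [hylen]; exact hNl j) hnum
    have h6 := QF_not m F z k true (y j)
    rw [Bool.not_true] at h6
    rw [h6] at hzj
    refine ⟨Az B₀ L xs as (val s z), fun v hv => if_pos hv, y j, ?_⟩
    rw [hfin, h2, ← hzj]
    cases QF m F k true (y j) z <;> simp

end Pool.Agent.W2helper61.RF
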